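import Pool.Agent.TH597.BL.Dist

set_option autoImplicit false

/-! Completeness of the metric of the example. -/

namespace Pool.Agent.TH597.BL

open Pool.Agent.W555.RG
open scoped ContDiff Topology
open Set

/-- the distance is nonnegative -/
theorem dist_nonneg' (h : RMetric V) (x y : V) : 0 ≤ h.dist x y := by
  apply Real.sInf_nonneg
  rintro L ⟨γ, -, -, -, rfl⟩
  exact h.length_nonneg γ

/-- the distance is at most the length of a curve -/
theorem dist_le_length (h : RMetric V) {γ : ℝ → V} (hγ : ContDiff ℝ 1 γ) :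
    h.dist (γ 0) (γ 1) ≤ h.length γ := by
  apply csInf_le
  · exact ⟨0, by rintro L ⟨γ, -, -, -, rfl⟩; exact h.length_nonneg γ⟩
  · exact ⟨γ, hγ, rfl, rfl, rfl⟩

theorem exists_curve (h : RMetric V) (x y : V) {δ : ℝ} (hδ : h.dist x y < δ) :
    ∃ γ : ℝ → V, ContDiff ℝ 1 γ ∧ γ 0 = x ∧ γ 1 = y ∧ h.length γ < δ := by
  obtain ⟨L, ⟨γ, h1, h2, h3, rfl⟩, h4⟩ := exists_lt_of_csInf_lt
    (s := {L | ∃ γ : ℝ → V, ContDiff ℝ 1 γ ∧ γ 0 = x ∧ γ 1 = y ∧ L = h.length γ})
    ⟨_, fun s => x + s • (y - x), by fun_prop, by simp, by simp, rfl⟩ hδ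
  exact ⟨γ, h1, h2, h3, h4⟩

/-- local constant in the comparison of the norm with the distance -/
noncomputable def CC (a e : ℝ) (p : V) : ℝ :=
  1 + (3 + dS p p) ^ a * (1 + |p 10|) + (3 + dS p p) ^ (1 + 2 * a) / e
    + (3 + dS p p) ^ a * (3 + dS p p) ^ a

theorem cont_dS_self : Continuous (fun p : V => dS p p) :=
  contDiff_dS.continuous.comp (continuous_id.prodMk continuous_id)

theorem continuous_CC (a : ℝ) {e : ℝ} (he : 0 < e) : Continuous (CC a e) := by
  unfold CC
  have h1 : Continuous (fun p : V => 3 + dS p p) := continuous_const.add cont_dS_self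
  have hne : ∀ p : V, 3 + dS p p ≠ 0 := fun p => by have := dS_self_nonneg p; positivity
  have h2 : ∀ b : ℝ, Continuous (fun p : V => (3 + dS p p) ^ b) := fun b =>
    h1.rpow_const (fun p => Or.inl (hne p))
  exact ((continuous_const.add ((h2 a).mul (continuous_const.add
    (continuous_apply 10).abs))).add ((h2 _).div_const e)).add ((h2 a).mul (h2 a))

theorem norm_le_length {a e : ℝ} (ha : 0 ≤ a) (he : 0 < e) {γ : ℝ → V} (hγ : ContDiff ℝ 1 γ)
    (hl : (G a e he.ne').length γ ≤ 1) :
    ‖γ 1 - γ 0‖ ≤ CC a e (γ 0) * (G a e he.ne').length γ := by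
  set l := (G a e he.ne').length γ with hldef
  have hl0 : 0 ≤ l := RMetric.length_nonneg _ γ
  set W : ℝ := 3 + dS (γ 0) (γ 0) with hWdef
  have hW : ∀ t ∈ Icc (0 : ℝ) 1, w (γ t) ≤ W := by
    intro t ht
    have := rho_le a e he.ne' hγ ht
    unfold w
    linarith
  have hWp : 0 < W := W_pos ha he hW
  have h1m : (1 : ℝ) ∈ Icc (0 : ℝ) 1 := ⟨zero_le_one, le_rfl⟩
  have i10 := incr10 ha he hW hγ h1m
  have i11 := incr11 ha he hW hγ h1m
  have i12 := incr12 ha he hW hγ h1m
  have iS := fun i hi => incrS ha he hW hγ h1m i hi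
  rw [← hldef] at i10 i11 i12
  have hWa : 0 < W ^ a := by positivity
  have hWb : 0 < W ^ (1 + 2 * a) / e := by positivity
  have hp := abs_nonneg (γ 0 10)
  have hC : CC a e (γ 0) = 1 + W ^ a * (1 + |γ 0 10|) + W ^ (1 + 2 * a) / e + W ^ a * W ^ a := rfl
  rw [pi_norm_le_iff_of_nonneg (by rw [hC]; positivity)]
  intro i
  rw [Real.norm_eq_abs, Pi.sub_apply]
  by_cases hi : i.val < 10
  · refine (iS i hi).trans ?_
    rw [← hldef, hC]
    have : 0 ≤ (W ^ a * (1 + |γ 0 10|) + W ^ (1 + 2 * a) / e + W ^ a * W ^ a) * l := by positivity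
    linarith
  · have : i = 10 ∨ i = 11 ∨ i = 12 := by omega
    rcases this with rfl | rfl | rfl
    · refine i10.trans ?_
      rw [hC]
      have : 0 ≤ (1 + W ^ a * |γ 0 10| + W ^ (1 + 2 * a) / e + W ^ a * W ^ a) * l := by positivity
      linarith
    · refine i11.trans ?_
      rw [hC]
      have : 0 ≤ (1 + W ^ a * |γ 0 10| + W ^ (1 + 2 * a) / e + W ^ a * W ^ a) * l := by positivity
      linarith
    · have e1 : γ 1 12 - γ 0 12 = ((γ 1 12 - γ 0 10 * γ 1 11) - (γ 0 12 - γ 0 10 * γ 0 11))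
          + γ 0 10 * (γ 1 11 - γ 0 11) := by ring
      rw [e1]
      refine (abs_add_le _ _).trans ?_
      rw [abs_mul]
      have h2 : |γ 0 10| * |γ 1 11 - γ 0 11| ≤ |γ 0 10| * (W ^ a * l) :=
        mul_le_mul_of_nonneg_left i11 hp
      have h3 : W ^ a * l * W ^ a * l ≤ W ^ a * W ^ a * l := by
        have : W ^ a * W ^ a * l * l ≤ W ^ a * W ^ a * l * 1 :=
          mul_le_mul_of_nonneg_left hl (by positivity)
        nlinarith
      have h4 : 0 ≤ (1 + W ^ a) * l := by positivity
      rw [hC]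
      nlinarith

theorem norm_le_dist {a e : ℝ} (ha : 0 ≤ a) (he : 0 < e) (x y : V)
    (hxy : (G a e he.ne').dist x y < 1) : ‖y - x‖ ≤ CC a e x * (G a e he.ne').dist x y := by
  have hC0 : 0 ≤ CC a e x := by
    have := dS_self_nonneg x
    unfold CC
    positivity
  have key : ∀ δ : ℝ, (G a e he.ne').dist x y < δ → δ < 1 → ‖y - x‖ ≤ CC a e x * δ := by
    intro δ h1 h2
    obtain ⟨γ, hγ, h3, h4, h5⟩ := exists_curve _ x y h1
    have h6 := norm_le_length ha he hγ (by linarith)
    rw [h3, h4] at h6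
    exact h6.trans (mul_le_mul_of_nonneg_left h5.le hC0)
  have hlim : Filter.Tendsto (fun δ => CC a e x * δ) (𝓝[>] ((G a e he.ne').dist x y))
      (𝓝 (CC a e x * (G a e he.ne').dist x y)) :=
    ((continuous_const.mul continuous_id).tendsto _).mono_left nhdsWithin_le_nhds
  refine ge_of_tendsto hlim ?_
  filter_upwards [Ioo_mem_nhdsGT hxy] with δ hδ
  exact key δ hδ.1 hδ.2

/-- upper bound of the metric -/
noncomputable def KK (e : ℝ) (x : V) : ℝ := 12 + 10 * dS x x + e ^ 2 * (1 + |x 10|) ^ 2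

theorem continuous_KK (e : ℝ) : Continuous (KK e) := by
  unfold KK
  have h1 : Continuous (fun x : V => (1 + |x 10|) ^ 2) := by fun_prop
  exact (continuous_const.add (continuous_const.mul cont_dS_self)).add
    (continuous_const.mul h1)

theorem dS_le_norm (v : V) : dS v v ≤ 10 * ‖v‖ ^ 2 := by
  unfold dS
  have h : ∀ i : Fin 13, (if i.val < 10 then v i * v i else 0) ≤
      if i.val < 10 then ‖v‖ ^ 2 else 0 := by
    intro i
    split_ifs
    · have := norm_le_pi_norm v i
      rw [Real.norm_eq_abs] at this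
      have h2 : v i * v i = |v i| ^ 2 := by rw [sq_abs]; ring
      rw [h2]
      exact pow_le_pow_left₀ (abs_nonneg _) this 2
    · exact le_rfl
  refine (Finset.sum_le_sum fun i _ => h i).trans ?_
  rw [← Finset.sum_filter, Finset.sum_const]
  have : (Finset.univ.filter (fun k : Fin 13 => k.val < 10)).card = 10 := by decide
  rw [this]
  simp

theorem gf_le {a e : ℝ} (ha : 0 ≤ a) (x v : V) : gf a e x v v ≤ KK e x * ‖v‖ ^ 2 := by
  have hw1 := one_le_w x
  have hwp := w_pos x
  have hH : H a (w x) ≤ 1 := by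
    unfold H
    exact Real.rpow_le_one_of_one_le_of_nonpos hw1 (by linarith)
  have hK : K a e (w x) ≤ e ^ 2 := by
    unfold K
    have : (w x) ^ (-(2 + 4 * a)) ≤ 1 :=
      Real.rpow_le_one_of_one_le_of_nonpos hw1 (by linarith)
    nlinarith [sq_nonneg e]
  have hc : ∀ i, |v i| ≤ ‖v‖ := fun i => by
    have := norm_le_pi_norm v i
    rwa [Real.norm_eq_abs] at this
  have hsq : ∀ i, v i * v i ≤ ‖v‖ ^ 2 := fun i => by
    have h2 : v i * v i = |v i| ^ 2 := by rw [sq_abs]; ring
    rw [h2]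
    exact pow_le_pow_left₀ (abs_nonneg _) (hc i) 2
  have h1 := dS_le_norm v
  have hCS : dS x v * dS x v ≤ dS x x * dS v v := by
    have hs : ∀ x y : V, dS x y = ∑ i ∈ Finset.univ.filter (fun i : Fin 13 => i.val < 10),
        x i * y i := by
      intro x y
      unfold dS
      rw [Finset.sum_filter]
    rw [hs x v, hs x x, hs v v]
    have := Finset.sum_mul_sq_le_sq_mul_sq
      (Finset.univ.filter (fun i : Fin 13 => i.val < 10)) x v
    simpa [sq] using this
  have hx := dS_self_nonneg x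
  have h2 : dS x v * dS x v ≤ 10 * dS x x * ‖v‖ ^ 2 := by nlinarith
  have h3 : H a (w x) * (v 10 * v 10 + v 11 * v 11) ≤ 2 * ‖v‖ ^ 2 := by
    have h4 := hsq 10
    have h5 := hsq 11
    have h6 : 0 ≤ v 10 * v 10 + v 11 * v 11 := add_nonneg (mul_self_nonneg _) (mul_self_nonneg _)
    calc H a (w x) * (v 10 * v 10 + v 11 * v 11) ≤ 1 * (v 10 * v 10 + v 11 * v 11) :=
          mul_le_mul_of_nonneg_right hH h6
      _ ≤ _ := by linarith
  have h7 : |th x v| ≤ (1 + |x 10|) * ‖v‖ := by
    unfold th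
    calc |v 12 - x 10 * v 11| ≤ |v 12| + |x 10 * v 11| := abs_sub _ _
      _ ≤ ‖v‖ + |x 10| * ‖v‖ := by
        rw [abs_mul]
        exact add_le_add (hc 12) (mul_le_mul_of_nonneg_left (hc 11) (abs_nonneg _))
      _ = _ := by ring
  have h8 : th x v * th x v ≤ (1 + |x 10|) ^ 2 * ‖v‖ ^ 2 := by
    have : th x v * th x v = |th x v| ^ 2 := by rw [sq_abs]; ring
    rw [this, ← mul_pow]
    exact pow_le_pow_left₀ (abs_nonneg _) h7 2
  have h9 : K a e (w x) * (th x v * th x v) ≤ e ^ 2 * ((1 + |x 10|) ^ 2 * ‖v‖ ^ 2) :=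
    (mul_le_mul_of_nonneg_right hK (mul_self_nonneg _)).trans
      (mul_le_mul_of_nonneg_left h8 (sq_nonneg e))
  unfold gf KK
  nlinarith

theorem dist_tendsto {a e : ℝ} (ha : 0 ≤ a) (he : 0 < e) {s : ℕ → V} {q : V}
    (hq : Filter.Tendsto s Filter.atTop (𝓝 q)) :
    Filter.Tendsto (fun n => (G a e he.ne').dist (s n) q) Filter.atTop (𝓝 0) := by
  obtain ⟨C₀, hC⟩ := (isCompact_closedBall q (1 : ℝ)).bddAbove_image (continuous_KK e).continuousOn
  obtain ⟨C, hC', hC0⟩ : ∃ C : ℝ, (∀ y ∈ Metric.closedBall q (1 : ℝ), KK e y ≤ C) ∧ 0 ≤ C :=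
    ⟨max C₀ 0, fun y hy => (hC (Set.mem_image_of_mem (KK e) hy)).trans (le_max_left _ _),
      le_max_right _ _⟩
  have hub : ∀ᶠ n in Filter.atTop, (G a e he.ne').dist (s n) q ≤ Real.sqrt C * ‖s n - q‖ := by
    have hball : ∀ᶠ n in Filter.atTop, s n ∈ Metric.closedBall q (1 : ℝ) :=
      hq.eventually (Metric.closedBall_mem_nhds q one_pos)
    filter_upwards [hball] with n hn
    have hγ : ContDiff ℝ 1 (fun τ : ℝ => s n + τ • (q - s n)) := by fun_prop
    have hle : (G a e he.ne').dist (s n) q ≤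
        (G a e he.ne').length (fun τ : ℝ => s n + τ • (q - s n)) := by
      have := dist_le_length (G a e he.ne') hγ
      simpa using this
    refine hle.trans ?_
    have hder : ∀ τ : ℝ, deriv (fun τ : ℝ => s n + τ • (q - s n)) τ = q - s n := by
      intro τ
      have : HasDerivAt (fun τ : ℝ => s n + τ • (q - s n)) ((1 : ℝ) • (q - s n)) τ :=
        ((hasDerivAt_id τ).smul_const (q - s n)).const_add (s n)
      rw [this.deriv, one_smul]
    rw [length_eq]
    calc ∫ τ in (0 : ℝ)..1, sp a e (fun τ : ℝ => s n + τ • (q - s n)) τ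
        ≤ ∫ _ in (0 : ℝ)..1, Real.sqrt C * ‖s n - q‖ := by
          apply intervalIntegral.integral_mono_on (by norm_num)
          · exact (continuous_sp a e hγ).intervalIntegrable _ _
          · exact continuous_const.intervalIntegrable _ _
          · intro τ hτ
            unfold sp
            rw [hder]
            have hmem : s n + τ • (q - s n) ∈ Metric.closedBall q (1 : ℝ) :=
              (convex_closedBall q (1 : ℝ)).add_smul_sub_mem hn
                (Metric.mem_closedBall_self zero_le_one) hτ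
            have h1 : gf a e (s n + τ • (q - s n)) (q - s n) (q - s n) ≤ C * ‖s n - q‖ ^ 2 := by
              refine (gf_le ha _ _).trans ?_
              rw [norm_sub_rev q (s n)]
              have := hC' _ hmem
              gcongr
            calc Real.sqrt (gf a e (s n + τ • (q - s n)) (q - s n) (q - s n))
                ≤ Real.sqrt (C * ‖s n - q‖ ^ 2) := Real.sqrt_le_sqrt h1
              _ = Real.sqrt C * ‖s n - q‖ := by
                rw [Real.sqrt_mul hC0, Real.sqrt_sq (norm_nonneg _)]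
      _ = Real.sqrt C * ‖s n - q‖ := by simp
  have hlim : Filter.Tendsto (fun n => Real.sqrt C * ‖s n - q‖) Filter.atTop (𝓝 0) := by
    have : Filter.Tendsto (fun n => ‖s n - q‖) Filter.atTop (𝓝 0) :=
      tendsto_iff_norm_sub_tendsto_zero.mp hq
    simpa using this.const_mul (Real.sqrt C)
  exact squeeze_zero' (Filter.Eventually.of_forall fun n => dist_nonneg' _ _ _) hub hlim

/-- The metric of the example is complete. -/
theorem complete_G {a e : ℝ} (ha : 0 ≤ a) (he : 0 < e) : (G a e he.ne').IsComplete := by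
  intro s hs
  obtain ⟨N, hN⟩ := hs 1 one_pos
  -- the tail of the sequence stays in a compact set
  have hb : ∀ m ≥ N, s m ∈ Metric.closedBall (s N) (CC a e (s N)) := by
    intro m hm
    have h1 := hN N m le_rfl hm
    have h2 := norm_le_dist ha he (s N) (s m) h1
    rw [mem_closedBall_iff_norm]
    have hC0 : 0 ≤ CC a e (s N) := by
      have := dS_self_nonneg (s N)
      unfold CC
      positivity
    calc ‖s m - s N‖ ≤ CC a e (s N) * (G a e he.ne').dist (s N) (s m) := h2
      _ ≤ CC a e (s N) * 1 := mul_le_mul_of_nonneg_left h1.le hC0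
      _ = _ := mul_one _
  obtain ⟨C₀, hC⟩ := (isCompact_closedBall (s N) (CC a e (s N))).bddAbove_image
    (continuous_CC a he).continuousOn
  obtain ⟨C, hC', hC0⟩ : ∃ C : ℝ, (∀ y ∈ Metric.closedBall (s N) (CC a e (s N)), CC a e y ≤ C) ∧
      0 < C :=
    ⟨max C₀ 1, fun y hy => (hC (Set.mem_image_of_mem (CC a e) hy)).trans (le_max_left _ _),
      lt_of_lt_of_le one_pos (le_max_right _ _)⟩
  have hcau : CauchySeq s := by
    rw [Metric.cauchySeq_iff]
    intro ε hε
    obtain ⟨N', hN'⟩ := hs (min 1 (ε / C)) (lt_min one_pos (by positivity))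
    refine ⟨max N N', fun m hm n hn => ?_⟩
    have h1 := hN' m n ((le_max_right _ _).trans hm) ((le_max_right _ _).trans hn)
    have h2 := norm_le_dist ha he (s m) (s n) (h1.trans_le (min_le_left _ _))
    have h3 := hC' (s m) (hb m ((le_max_left _ _).trans hm))
    have h4 := h1.trans_le (min_le_right _ _)
    rw [dist_eq_norm, norm_sub_rev]
    calc ‖s n - s m‖ ≤ CC a e (s m) * (G a e he.ne').dist (s m) (s n) := h2
      _ ≤ C * (G a e he.ne').dist (s m) (s n) :=
        mul_le_mul_of_nonneg_right h3 (dist_nonneg' _ _ _)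
      _ < C * (ε / C) := mul_lt_mul_of_pos_left h4 hC0
      _ = ε := by field_simp
  obtain ⟨q, hq⟩ := cauchySeq_tendsto_of_complete hcau
  exact ⟨q, dist_tendsto ha he hq⟩

end Pool.Agent.TH597.BL
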