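import Pool.Agent.W555.RG

set_option autoImplicit false

/-!
Ricci curvature of a Riemannian metric on `ℝⁿ`, and the family of metrics on `ℝ¹³` used in the
counterexample.
-/

namespace Pool.Agent.TH597.BL

open Pool.Agent.W555.RG
open scoped ContDiff Topology

/-- The Ricci tensor `Ric_x(u, v)`: the trace of the map `z ↦ R(z, u) v` on `T_x ℝⁿ = ℝⁿ`, computed
in the standard basis. -/
noncomputable def Ric {n : ℕ} (g : RMetric (Fin n → ℝ)) (x u v : Fin n → ℝ) : ℝ :=
  ∑ k, g.curv x (Pi.single k 1) u v k

/-- The space of the example. The coordinates `0, …, 9` form the factor `ℝ¹⁰`, the coordinates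
`10, 11, 12` the Heisenberg group. -/
abbrev V : Type := Fin 13 → ℝ

/-- scalar product of the components in `ℝ¹⁰` -/
def dS (u v : V) : ℝ := ∑ i : Fin 13, if i.val < 10 then u i * v i else 0

/-- projection to `ℝ¹⁰` -/
def PS (u : V) : V := fun i => if i.val < 10 then u i else 0

/-- the function `w = 1 + |y|²` -/
def w (q : V) : ℝ := 1 + dS q q

/-- the left invariant form `dx₃ - x₁ dx₂` -/
def th (q u : V) : ℝ := u 12 - q 10 * u 11

/-- coefficient in the horizontal directions -/
noncomputable def H (a : ℝ) (t : ℝ) : ℝ := t ^ (-(2 * a))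

/-- coefficient in the central direction -/
noncomputable def K (a e : ℝ) (t : ℝ) : ℝ := e ^ 2 * t ^ (-(2 + 4 * a))

/-- the metric coefficients -/
noncomputable def gf (a e : ℝ) (q u v : V) : ℝ :=
  dS u v + dS q u * dS q v + H a (w q) * (u 10 * v 10 + u 11 * v 11)
    + K a e (w q) * (th q u * th q v)

theorem dS_comm (u v : V) : dS u v = dS v u := by
  unfold dS
  refine Finset.sum_congr rfl fun i _ => ?_
  split_ifs <;> ring

theorem dS_add_right (u v v' : V) : dS u (v + v') = dS u v + dS u v' := by
  unfold dS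
  rw [← Finset.sum_add_distrib]
  refine Finset.sum_congr rfl fun i _ => ?_
  split_ifs
  · simp [mul_add]
  · simp

theorem dS_smul_right (c : ℝ) (u v : V) : dS u (c • v) = c * dS u v := by
  unfold dS
  rw [Finset.mul_sum]
  refine Finset.sum_congr rfl fun i _ => ?_
  split_ifs
  · simp only [Pi.smul_apply, smul_eq_mul]; ring
  · simp

theorem dS_add_left (u u' v : V) : dS (u + u') v = dS u v + dS u' v := by
  rw [dS_comm, dS_add_right, dS_comm v u, dS_comm v u']

theorem dS_smul_left (c : ℝ) (u v : V) : dS (c • u) v = c * dS u v := by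
  rw [dS_comm, dS_smul_right, dS_comm]

theorem dS_self_nonneg (u : V) : 0 ≤ dS u u := by
  unfold dS
  refine Finset.sum_nonneg fun i _ => ?_
  split_ifs
  · exact mul_self_nonneg _
  · exact le_rfl

theorem dS_PS (u v : V) : dS u (PS v) = dS u v := by
  unfold dS PS
  refine Finset.sum_congr rfl fun i _ => ?_
  split_ifs <;> simp

theorem w_pos (q : V) : 0 < w q := by
  have := dS_self_nonneg q
  unfold w
  linarith

theorem one_le_w (q : V) : 1 ≤ w q := by
  have := dS_self_nonneg q
  unfold w
  linarith

theorem H_pos (a : ℝ) {t : ℝ} (ht : 0 < t) : 0 < H a t := Real.rpow_pos_of_pos ht _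

theorem K_pos (a : ℝ) {e : ℝ} (he : e ≠ 0) {t : ℝ} (ht : 0 < t) : 0 < K a e t :=
  mul_pos (by positivity) (Real.rpow_pos_of_pos ht _)

theorem th_add (q u v : V) : th q (u + v) = th q u + th q v := by
  unfold th; simp only [Pi.add_apply]; ring

theorem th_smul (c : ℝ) (q u : V) : th q (c • u) = c * th q u := by
  unfold th; simp only [Pi.smul_apply, smul_eq_mul]; ring

/-- the metric as a bilinear form -/
noncomputable def gB (a e : ℝ) (q : V) : LinearMap.BilinForm ℝ V :=
  LinearMap.mk₂ ℝ (gf a e q)
    (by
      intro u u' v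
      unfold gf
      rw [dS_add_left, dS_add_right, th_add]
      simp only [Pi.add_apply]
      ring)
    (by
      intro c u v
      unfold gf
      rw [dS_smul_left, dS_smul_right, th_smul]
      simp only [Pi.smul_apply, smul_eq_mul]
      ring)
    (by
      intro u v v'
      unfold gf
      rw [dS_add_right, dS_add_right, th_add]
      simp only [Pi.add_apply]
      ring)
    (by
      intro c u v
      unfold gf
      rw [dS_smul_right, dS_smul_right, th_smul]
      simp only [Pi.smul_apply, smul_eq_mul]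
      ring)

@[simp] theorem gB_apply (a e : ℝ) (q u v : V) : gB a e q u v = gf a e q u v := rfl

theorem contDiff_dS : ContDiff ℝ ∞ (fun p : V × V => dS p.1 p.2) := by
  unfold dS
  refine ContDiff.sum fun i _ => ?_
  split_ifs
  · fun_prop
  · fun_prop

theorem contDiff_w : ContDiff ℝ ∞ w := by
  unfold w
  exact contDiff_const.add (contDiff_dS.comp (contDiff_id.prodMk contDiff_id))

theorem contDiff_dS_left (u : V) : ContDiff ℝ ∞ (fun q => dS q u) :=
  contDiff_dS.comp (contDiff_id.prodMk contDiff_const)

theorem contDiff_H (a : ℝ) : ContDiff ℝ ∞ (fun q : V => H a (w q)) :=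
  contDiff_w.rpow_const_of_ne fun q => (w_pos q).ne'

theorem contDiff_K (a e : ℝ) : ContDiff ℝ ∞ (fun q : V => K a e (w q)) :=
  contDiff_const.mul (contDiff_w.rpow_const_of_ne fun q => (w_pos q).ne')

theorem contDiff_th (u : V) : ContDiff ℝ ∞ (fun q => th q u) := by
  unfold th
  fun_prop

theorem contDiff_gf (a e : ℝ) (u v : V) : ContDiff ℝ ∞ (fun q => gf a e q u v) := by
  unfold gf
  have h1 := contDiff_dS_left u
  have h2 := contDiff_dS_left v
  have h3 := contDiff_H a
  have h4 := contDiff_K a e
  have h5 := contDiff_th u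
  have h6 := contDiff_th v
  exact ((contDiff_const.add (h1.mul h2)).add (h3.mul contDiff_const)).add (h4.mul (h5.mul h6))

theorem eq_zero_of_dS {u : V} (h : dS u u = 0) (i : Fin 13) (hi : i.val < 10) : u i = 0 := by
  unfold dS at h
  rw [Finset.sum_eq_zero_iff_of_nonneg] at h
  · have := h i (Finset.mem_univ i)
    rw [if_pos hi] at this
    exact mul_self_eq_zero.mp this
  · intro i _
    split_ifs
    · exact mul_self_nonneg _
    · exact le_rfl

theorem gf_nonneg_parts (a : ℝ) {e : ℝ} (he : e ≠ 0) (q u : V) :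
    0 ≤ H a (w q) * (u 10 * u 10 + u 11 * u 11) ∧ 0 ≤ K a e (w q) * (th q u * th q u) :=
  ⟨mul_nonneg (H_pos a (w_pos q)).le (add_nonneg (mul_self_nonneg _) (mul_self_nonneg _)),
    mul_nonneg (K_pos a he (w_pos q)).le (mul_self_nonneg _)⟩

theorem gf_pos (a : ℝ) {e : ℝ} (he : e ≠ 0) (q u : V) (hu : u ≠ 0) : 0 < gf a e q u u := by
  have h1 := dS_self_nonneg u
  have h2 : 0 ≤ dS q u * dS q u := mul_self_nonneg _
  obtain ⟨h3, h4⟩ := gf_nonneg_parts a he q u
  have hnn : 0 ≤ gf a e q u u := by unfold gf; linarith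
  rcases hnn.lt_or_eq with h | h
  · exact h
  exfalso
  apply hu
  unfold gf at h
  have e1 : dS u u = 0 := by linarith
  have e3 : H a (w q) * (u 10 * u 10 + u 11 * u 11) = 0 := by linarith
  have e4 : K a e (w q) * (th q u * th q u) = 0 := by linarith
  have e3' : u 10 * u 10 + u 11 * u 11 = 0 := by
    rcases mul_eq_zero.mp e3 with h | h
    · exact absurd h (H_pos a (w_pos q)).ne'
    · exact h
  have e4' : th q u = 0 := by
    rcases mul_eq_zero.mp e4 with h | h
    · exact absurd h (K_pos a he (w_pos q)).ne'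
    · exact mul_self_eq_zero.mp h
  have u10 : u 10 = 0 := by nlinarith [mul_self_nonneg (u 10), mul_self_nonneg (u 11)]
  have u11 : u 11 = 0 := by nlinarith [mul_self_nonneg (u 10), mul_self_nonneg (u 11)]
  have u12 : u 12 = 0 := by
    unfold th at e4'
    rw [u11] at e4'
    linarith
  funext i
  by_cases hi : i.val < 10
  · exact eq_zero_of_dS e1 i hi
  · have : i = 10 ∨ i = 11 ∨ i = 12 := by omega
    rcases this with rfl | rfl | rfl
    · exact u10
    · exact u11
    · exact u12

/-- the Riemannian metric of the example -/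
noncomputable def G (a e : ℝ) (he : e ≠ 0) : RMetric V where
  form := gB a e
  symm' := by
    intro x u v
    simp only [gB_apply, gf]
    rw [dS_comm u v]
    ring
  pos' := fun x u hu => gf_pos a he x u hu
  smooth' := fun u v => contDiff_gf a e u v

@[simp] theorem G_form (a e : ℝ) (he : e ≠ 0) (q u v : V) :
    (G a e he).form q u v = gf a e q u v := rfl

end Pool.Agent.TH597.BL
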