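import Pool.Agent.TH597.BL.Defs

set_option autoImplicit false

/-! Distances for the metric of the example. -/

namespace Pool.Agent.TH597.BL

open Pool.Agent.W555.RG
open scoped ContDiff Topology
open Set

theorem continuous_gf (a e : ℝ) {γ : ℝ → V} (hγ : ContDiff ℝ 1 γ) :
    Continuous fun s => gf a e (γ s) (deriv γ s) (deriv γ s) := by
  have hd : Continuous (deriv γ) := hγ.continuous_deriv le_rfl
  have hc : Continuous γ := hγ.continuous
  have hS : ∀ {f g : ℝ → V}, Continuous f → Continuous g →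
      Continuous (fun s => dS (f s) (g s)) := by
    intro f g hf hg
    exact contDiff_dS.continuous.comp (hf.prodMk hg)
  have hH : Continuous (fun s => H a (w (γ s))) := (contDiff_H a).continuous.comp hc
  have hK : Continuous (fun s => K a e (w (γ s))) := (contDiff_K a e).continuous.comp hc
  have hco : ∀ {f : ℝ → V} (i : Fin 13), Continuous f → Continuous (fun s => f s i) :=
    fun i hf => (continuous_apply i).comp hf
  unfold gf th
  exact (((hS hd hd).add ((hS hc hd).mul (hS hc hd))).add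
    (hH.mul (((hco 10 hd).mul (hco 10 hd)).add ((hco 11 hd).mul (hco 11 hd))))).add
    (hK.mul (((hco 12 hd).sub ((hco 10 hc).mul (hco 11 hd))).mul
      ((hco 12 hd).sub ((hco 10 hc).mul (hco 11 hd)))))

/-- speed of a curve -/
noncomputable def sp (a e : ℝ) (γ : ℝ → V) (s : ℝ) : ℝ :=
  Real.sqrt (gf a e (γ s) (deriv γ s) (deriv γ s))

theorem continuous_sp (a e : ℝ) {γ : ℝ → V} (hγ : ContDiff ℝ 1 γ) : Continuous (sp a e γ) :=
  Real.continuous_sqrt.comp (continuous_gf a e hγ)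

theorem length_eq (a e : ℝ) (he : e ≠ 0) (γ : ℝ → V) :
    (G a e he).length γ = ∫ s in (0 : ℝ)..1, sp a e γ s := rfl

theorem sp_nonneg (a e : ℝ) (γ : ℝ → V) (s : ℝ) : 0 ≤ sp a e γ s := Real.sqrt_nonneg _

/-- estimate of a function along a curve -/
theorem incr_le (a e : ℝ) (he : e ≠ 0) {γ : ℝ → V} (hγ : ContDiff ℝ 1 γ) {φ φ' : ℝ → ℝ}
    (hφ : ∀ t, HasDerivAt φ (φ' t) t) (hφ' : Continuous φ') {C : ℝ} (hC : 0 ≤ C)
    (hb : ∀ t ∈ Icc (0 : ℝ) 1, |φ' t| ≤ C * sp a e γ t) {t : ℝ} (ht : t ∈ Icc (0 : ℝ) 1) :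
    |φ t - φ 0| ≤ C * (G a e he).length γ := by
  rw [length_eq]
  have hi : ∫ s in (0 : ℝ)..t, φ' s = φ t - φ 0 :=
    intervalIntegral.integral_eq_sub_of_hasDerivAt (fun s _ => hφ s)
      (hφ'.intervalIntegrable _ _)
  rw [← hi]
  have hs := continuous_sp a e hγ
  calc |∫ s in (0 : ℝ)..t, φ' s| ≤ ∫ s in (0 : ℝ)..t, |φ' s| :=
        intervalIntegral.abs_integral_le_integral_abs ht.1
    _ ≤ ∫ s in (0 : ℝ)..t, C * sp a e γ s := by
        apply intervalIntegral.integral_mono_on ht.1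
        · exact hφ'.abs.intervalIntegrable _ _
        · exact (continuous_const.mul hs).intervalIntegrable _ _
        · intro s hs'
          exact hb s ⟨hs'.1, hs'.2.trans ht.2⟩
    _ = C * ∫ s in (0 : ℝ)..t, sp a e γ s := by rw [intervalIntegral.integral_const_mul]
    _ ≤ C * ∫ s in (0 : ℝ)..1, sp a e γ s := by
        apply mul_le_mul_of_nonneg_left _ hC
        have h1 : ∫ s in (0 : ℝ)..1, sp a e γ s =
            (∫ s in (0 : ℝ)..t, sp a e γ s) + ∫ s in t..1, sp a e γ s :=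
          (intervalIntegral.integral_add_adjacent_intervals (hs.intervalIntegrable _ _)
            (hs.intervalIntegrable _ _)).symm
        have h2 : 0 ≤ ∫ s in t..1, sp a e γ s :=
          intervalIntegral.integral_nonneg ht.2 fun s _ => sp_nonneg a e γ s
        linarith

theorem hasDerivAt_coord {γ : ℝ → V} (hγ : ContDiff ℝ 1 γ) (i : Fin 13) (t : ℝ) :
    HasDerivAt (fun s => γ s i) (deriv γ t i) t := by
  have h := ((hγ.differentiable (by norm_num)) t).hasDerivAt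
  exact (hasDerivAt_pi.mp h) i

theorem hasDerivAt_dS_self {γ : ℝ → V} (hγ : ContDiff ℝ 1 γ) (t : ℝ) :
    HasDerivAt (fun s => dS (γ s) (γ s)) (2 * dS (γ t) (deriv γ t)) t := by
  unfold dS
  rw [Finset.mul_sum]
  apply HasDerivAt.fun_sum
  intro i _
  split_ifs
  · have h := hasDerivAt_coord hγ i t
    convert! h.mul h using 1
    ring
  · simpa using hasDerivAt_const t (0 : ℝ)

theorem dS_cont {f g : ℝ → V} (hf : Continuous f) (hg : Continuous g) :
    Continuous (fun s => dS (f s) (g s)) :=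
  contDiff_dS.continuous.comp (hf.prodMk hg)

theorem abs_le_sp {a e : ℝ} {γ : ℝ → V} {t x C : ℝ} (hC : 0 ≤ C)
    (h : x ^ 2 ≤ C ^ 2 * gf a e (γ t) (deriv γ t) (deriv γ t)) : |x| ≤ C * sp a e γ t := by
  unfold sp
  rw [← Real.sqrt_sq_eq_abs, ← Real.sqrt_sq hC, ← Real.sqrt_mul (sq_nonneg _)]
  exact Real.sqrt_le_sqrt h

theorem sq_coord_le_dS (u : V) (i : Fin 13) (hi : i.val < 10) : (u i) ^ 2 ≤ dS u u := by
  unfold dS
  have h := Finset.single_le_sum (f := fun i : Fin 13 => if i.val < 10 then u i * u i else 0)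
    (s := Finset.univ) (fun j _ => by
      show 0 ≤ (if j.val < 10 then u j * u j else 0)
      split_ifs
      · exact mul_self_nonneg _
      · exact le_rfl) (Finset.mem_univ i)
  simp only [hi, if_true] at h
  calc (u i) ^ 2 = u i * u i := by ring
    _ ≤ _ := h

/-- bound of `|y|²` along a curve -/
theorem rho_le (a e : ℝ) (he : e ≠ 0) {γ : ℝ → V} (hγ : ContDiff ℝ 1 γ) {t : ℝ}
    (ht : t ∈ Icc (0 : ℝ) 1) :
    dS (γ t) (γ t) ≤ dS (γ 0) (γ 0) + 2 * (G a e he).length γ := by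
  have hd : Continuous (deriv γ) := hγ.continuous_deriv le_rfl
  have h := incr_le a e he hγ (C := 2) (hasDerivAt_dS_self hγ)
    (continuous_const.mul (dS_cont hγ.continuous hd)) (by norm_num) (by
      intro s _
      rw [abs_mul, abs_of_pos (by norm_num : (0 : ℝ) < 2)]
      apply mul_le_mul_of_nonneg_left _ (by norm_num)
      have h1 : |dS (γ s) (deriv γ s)| ≤ 1 * sp a e γ s := by
        apply abs_le_sp (by norm_num)
        have h2 := dS_self_nonneg (deriv γ s)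
        obtain ⟨h3, h4⟩ := gf_nonneg_parts a he (γ s) (deriv γ s)
        unfold gf
        nlinarith
      simpa using h1) ht
  have := (abs_le.mp h).2
  linarith

theorem H_anti {a : ℝ} (ha : 0 ≤ a) {t W : ℝ} (ht : 0 < t) (h : t ≤ W) :
    1 ≤ (W ^ a) ^ 2 * H a t := by
  have hW : 0 < W := ht.trans_le h
  have e1 : H a t = ((t ^ a) ^ 2)⁻¹ := by
    unfold H
    rw [Real.rpow_neg ht.le, mul_comm 2 a, Real.rpow_mul ht.le, Real.rpow_two]
  rw [e1, ← div_eq_mul_inv, one_le_div (by positivity)]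
  exact pow_le_pow_left₀ (by positivity) (Real.rpow_le_rpow ht.le h ha) 2

theorem K_anti {a e : ℝ} (ha : 0 ≤ a) (he : 0 < e) {t W : ℝ} (ht : 0 < t) (h : t ≤ W) :
    1 ≤ (W ^ (1 + 2 * a) / e) ^ 2 * K a e t := by
  have hW : 0 < W := ht.trans_le h
  have e1 : K a e t = e ^ 2 * ((t ^ (1 + 2 * a)) ^ 2)⁻¹ := by
    unfold K
    rw [Real.rpow_neg ht.le, show 2 + 4 * a = (1 + 2 * a) * 2 by ring, Real.rpow_mul ht.le,
      Real.rpow_two]
  rw [e1]
  have : (W ^ (1 + 2 * a) / e) ^ 2 * (e ^ 2 * ((t ^ (1 + 2 * a)) ^ 2)⁻¹) =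
      (W ^ (1 + 2 * a)) ^ 2 / (t ^ (1 + 2 * a)) ^ 2 := by
    field_simp
  rw [this, one_le_div (by positivity)]
  exact pow_le_pow_left₀ (by positivity) (Real.rpow_le_rpow ht.le h (by positivity)) 2

section bounds

variable {a e : ℝ} (ha : 0 ≤ a) (he : 0 < e) {γ : ℝ → V} {W : ℝ}
  (hW : ∀ t ∈ Icc (0 : ℝ) 1, w (γ t) ≤ W)

include ha he hW

theorem W_pos : 0 < W := (w_pos (γ 0)).trans_le (hW 0 ⟨le_rfl, zero_le_one⟩)

theorem der10_le {t : ℝ} (ht : t ∈ Icc (0 : ℝ) 1) : |deriv γ t 10| ≤ W ^ a * sp a e γ t := by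
  have hWp := W_pos ha he hW
  apply abs_le_sp (by positivity)
  have h1 := dS_self_nonneg (deriv γ t)
  have h2 := mul_self_nonneg (dS (γ t) (deriv γ t))
  obtain ⟨h3, h4⟩ := gf_nonneg_parts a he.ne' (γ t) (deriv γ t)
  have h5 := H_anti ha (w_pos (γ t)) (hW t ht)
  have h6 : H a (w (γ t)) * (deriv γ t 10) ^ 2 ≤ gf a e (γ t) (deriv γ t) (deriv γ t) := by
    have := mul_nonneg (H_pos a (w_pos (γ t))).le (mul_self_nonneg (deriv γ t 11))
    unfold gf
    nlinarith
  calc (deriv γ t 10) ^ 2 = 1 * (deriv γ t 10) ^ 2 := by ring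
    _ ≤ ((W ^ a) ^ 2 * H a (w (γ t))) * (deriv γ t 10) ^ 2 :=
        mul_le_mul_of_nonneg_right h5 (sq_nonneg _)
    _ = (W ^ a) ^ 2 * (H a (w (γ t)) * (deriv γ t 10) ^ 2) := by ring
    _ ≤ _ := mul_le_mul_of_nonneg_left h6 (sq_nonneg _)

theorem der11_le {t : ℝ} (ht : t ∈ Icc (0 : ℝ) 1) : |deriv γ t 11| ≤ W ^ a * sp a e γ t := by
  have hWp := W_pos ha he hW
  apply abs_le_sp (by positivity)
  have h1 := dS_self_nonneg (deriv γ t)
  have h2 := mul_self_nonneg (dS (γ t) (deriv γ t))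
  obtain ⟨h3, h4⟩ := gf_nonneg_parts a he.ne' (γ t) (deriv γ t)
  have h5 := H_anti ha (w_pos (γ t)) (hW t ht)
  have h6 : H a (w (γ t)) * (deriv γ t 11) ^ 2 ≤ gf a e (γ t) (deriv γ t) (deriv γ t) := by
    have := mul_nonneg (H_pos a (w_pos (γ t))).le (mul_self_nonneg (deriv γ t 10))
    unfold gf
    nlinarith
  calc (deriv γ t 11) ^ 2 = 1 * (deriv γ t 11) ^ 2 := by ring
    _ ≤ ((W ^ a) ^ 2 * H a (w (γ t))) * (deriv γ t 11) ^ 2 :=
        mul_le_mul_of_nonneg_right h5 (sq_nonneg _)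
    _ = (W ^ a) ^ 2 * (H a (w (γ t)) * (deriv γ t 11) ^ 2) := by ring
    _ ≤ _ := mul_le_mul_of_nonneg_left h6 (sq_nonneg _)

theorem derth_le {t : ℝ} (ht : t ∈ Icc (0 : ℝ) 1) :
    |th (γ t) (deriv γ t)| ≤ W ^ (1 + 2 * a) / e * sp a e γ t := by
  have hWp := W_pos ha he hW
  apply abs_le_sp (by positivity)
  have h1 := dS_self_nonneg (deriv γ t)
  have h2 := mul_self_nonneg (dS (γ t) (deriv γ t))
  obtain ⟨h3, h4⟩ := gf_nonneg_parts a he.ne' (γ t) (deriv γ t)
  have h5 := K_anti ha he (w_pos (γ t)) (hW t ht)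
  have h6 : K a e (w (γ t)) * (th (γ t) (deriv γ t)) ^ 2 ≤
      gf a e (γ t) (deriv γ t) (deriv γ t) := by
    unfold gf
    nlinarith
  calc (th (γ t) (deriv γ t)) ^ 2 = 1 * (th (γ t) (deriv γ t)) ^ 2 := by ring
    _ ≤ ((W ^ (1 + 2 * a) / e) ^ 2 * K a e (w (γ t))) * (th (γ t) (deriv γ t)) ^ 2 :=
        mul_le_mul_of_nonneg_right h5 (sq_nonneg _)
    _ = (W ^ (1 + 2 * a) / e) ^ 2 * (K a e (w (γ t)) * (th (γ t) (deriv γ t)) ^ 2) := by ring
    _ ≤ _ := mul_le_mul_of_nonneg_left h6 (sq_nonneg _)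

variable (hγ : ContDiff ℝ 1 γ)

include hγ

theorem incr10 {t : ℝ} (ht : t ∈ Icc (0 : ℝ) 1) :
    |γ t 10 - γ 0 10| ≤ W ^ a * (G a e he.ne').length γ := by
  have hd : Continuous (deriv γ) := hγ.continuous_deriv le_rfl
  have hWp := W_pos ha he hW
  exact incr_le a e he.ne' hγ (φ := fun s => γ s 10) (fun t => hasDerivAt_coord hγ 10 t)
    ((continuous_apply _).comp hd) (by positivity) (fun s hs => der10_le ha he hW hs) ht

theorem incr11 {t : ℝ} (ht : t ∈ Icc (0 : ℝ) 1) :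
    |γ t 11 - γ 0 11| ≤ W ^ a * (G a e he.ne').length γ := by
  have hd : Continuous (deriv γ) := hγ.continuous_deriv le_rfl
  have hWp := W_pos ha he hW
  exact incr_le a e he.ne' hγ (φ := fun s => γ s 11) (fun t => hasDerivAt_coord hγ 11 t)
    ((continuous_apply _).comp hd) (by positivity) (fun s hs => der11_le ha he hW hs) ht

theorem incr12 {t : ℝ} (ht : t ∈ Icc (0 : ℝ) 1) :
    |(γ t 12 - γ 0 10 * γ t 11) - (γ 0 12 - γ 0 10 * γ 0 11)| ≤
      (W ^ (1 + 2 * a) / e + W ^ a * (G a e he.ne').length γ * W ^ a)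
        * (G a e he.ne').length γ := by
  have hd : Continuous (deriv γ) := hγ.continuous_deriv le_rfl
  have hWp := W_pos ha he hW
  have hl : 0 ≤ (G a e he.ne').length γ := RMetric.length_nonneg _ γ
  refine incr_le a e he.ne' hγ (φ := fun s => γ s 12 - γ 0 10 * γ s 11)
    (φ' := fun s => deriv γ s 12 - γ 0 10 * deriv γ s 11)
    (fun t => (hasDerivAt_coord hγ 12 t).sub ((hasDerivAt_coord hγ 11 t).const_mul _))
    (((continuous_apply _).comp hd).sub (continuous_const.mul ((continuous_apply _).comp hd)))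
    (by positivity) (fun s hs => ?_) ht
  have e1 : deriv γ s 12 - γ 0 10 * deriv γ s 11 =
      th (γ s) (deriv γ s) + (γ s 10 - γ 0 10) * deriv γ s 11 := by
    unfold th; ring
  rw [e1, add_mul]
  refine (abs_add_le _ _).trans (add_le_add (derth_le ha he hW hs) ?_)
  rw [abs_mul, mul_assoc]
  exact mul_le_mul (incr10 ha he hW hγ hs) (der11_le ha he hW hs) (abs_nonneg _) (by positivity)

theorem incrS {t : ℝ} (ht : t ∈ Icc (0 : ℝ) 1) (i : Fin 13) (hi : i.val < 10) :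
    |γ t i - γ 0 i| ≤ (G a e he.ne').length γ := by
  have hd : Continuous (deriv γ) := hγ.continuous_deriv le_rfl
  have h := incr_le a e he.ne' hγ (φ := fun s => γ s i) (C := 1)
    (fun t => hasDerivAt_coord hγ i t)
    ((continuous_apply _).comp hd) (by positivity) (fun s hs => by
      apply abs_le_sp (by norm_num)
      have h1 := sq_coord_le_dS (deriv γ s) i hi
      have h2 := mul_self_nonneg (dS (γ s) (deriv γ s))
      obtain ⟨h3, h4⟩ := gf_nonneg_parts a he.ne' (γ s) (deriv γ s)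
      show (deriv γ s i) ^ 2 ≤ _
      unfold gf
      nlinarith) ht
  simpa using h

end bounds

/-- Bound of the vertical displacement along a curve. -/
theorem vertical {a e : ℝ} (ha : 0 ≤ a) (he : 0 < e) {γ : ℝ → V} (hγ : ContDiff ℝ 1 γ)
    {p : V} (hp : dS p p = 0) {k : ℝ} (h0 : γ 0 = p) (h1 : γ 1 = p + k • (Pi.single 12 1 : V)) :
    k ≤ ((1 + 2 * (G a e he.ne').length γ) ^ (1 + 2 * a) / e
      + ((1 + 2 * (G a e he.ne').length γ) ^ a) * (G a e he.ne').length γ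
        * (1 + 2 * (G a e he.ne').length γ) ^ a) * (G a e he.ne').length γ := by
  have hW : ∀ t ∈ Icc (0 : ℝ) 1, w (γ t) ≤ 1 + 2 * (G a e he.ne').length γ := by
    intro t ht
    have := rho_le a e he.ne' hγ ht
    rw [h0, hp] at this
    unfold w
    linarith
  have h := incr12 ha he hW hγ (t := 1) ⟨zero_le_one, le_rfl⟩
  have e11 : γ 1 11 = γ 0 11 := by
    rw [h1, h0]
    simp
  have e12 : γ 1 12 = γ 0 12 + k := by
    rw [h1, h0]
    simp
  rw [e11, e12] at h
  have h2 := (le_abs_self _).trans h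
  linarith

end Pool.Agent.TH597.BL
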