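import Pool.Agent.TH597.BL.Defs

set_option autoImplicit false

/-! Christoffel symbols of the metric of the example. -/

namespace Pool.Agent.TH597.BL

open Pool.Agent.W555.RG
open scoped ContDiff Topology

theorem fderiv_eq_of_line {f : V → ℝ} {q z : V} {c : ℝ} (hf : DifferentiableAt ℝ f q)
    (h : HasDerivAt (fun t : ℝ => f (q + t • z)) c 0) : fderiv ℝ f q z = c := by
  rw [← hf.lineDeriv_eq_fderiv]
  unfold lineDeriv
  exact h.deriv

theorem dS_line (q z u : V) : HasDerivAt (fun t : ℝ => dS (q + t • z) u) (dS z u) 0 := by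
  have h : (fun t : ℝ => dS (q + t • z) u) = fun t : ℝ => dS q u + t * dS z u := by
    funext t
    rw [dS_add_left, dS_smul_left]
  rw [h]
  simpa using ((hasDerivAt_id (0 : ℝ)).mul_const (dS z u)).const_add (dS q u)

theorem w_line (q z : V) : HasDerivAt (fun t : ℝ => w (q + t • z)) (2 * dS q z) 0 := by
  have h : (fun t : ℝ => w (q + t • z)) =
      fun t : ℝ => w q + (t * (2 * dS q z) + t * t * dS z z) := by
    funext t
    unfold w
    rw [dS_add_left, dS_smul_left, dS_add_right, dS_smul_right, dS_add_right, dS_smul_right,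
      dS_comm z q]
    ring
  rw [h]
  have h1 := (hasDerivAt_id (0 : ℝ)).mul_const (2 * dS q z)
  have h2 := ((hasDerivAt_id (0 : ℝ)).mul (hasDerivAt_id (0 : ℝ))).mul_const (dS z z)
  have h3 := (h1.add h2).const_add (w q)
  convert! h3 using 1
  simp

theorem th_line (q z u : V) :
    HasDerivAt (fun t : ℝ => th (q + t • z) u) (-(z 10 * u 11)) 0 := by
  have h : (fun t : ℝ => th (q + t • z) u) = fun t : ℝ => th q u + t * (-(z 10 * u 11)) := by
    funext t
    unfold th
    simp only [Pi.add_apply, Pi.smul_apply, smul_eq_mul]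
    ring
  rw [h]
  simpa using ((hasDerivAt_id (0 : ℝ)).mul_const (-(z 10 * u 11))).const_add (th q u)

theorem pow_line (q z : V) (r : ℝ) :
    HasDerivAt (fun t : ℝ => (w (q + t • z)) ^ r) (r * (w q) ^ r / w q * (2 * dS q z)) 0 := by
  have h0 : w (q + (0 : ℝ) • z) = w q := by simp
  have hw := w_line q z
  have h1 := hw.rpow_const (p := r) (Or.inl (by rw [h0]; exact (w_pos q).ne'))
  convert! h1 using 1
  rw [h0, Real.rpow_sub_one (w_pos q).ne']
  ring

theorem H_line (a : ℝ) (q z : V) : HasDerivAt (fun t : ℝ => H a (w (q + t • z)))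
    (-(2 * a) * H a (w q) / w q * (2 * dS q z)) 0 := pow_line q z _

theorem K_line (a e : ℝ) (q z : V) : HasDerivAt (fun t : ℝ => K a e (w (q + t • z)))
    (-(2 + 4 * a) * K a e (w q) / w q * (2 * dS q z)) 0 := by
  have h := (pow_line q z (-(2 + 4 * a))).const_mul (e ^ 2)
  unfold K
  convert! h using 1
  ring

theorem gf_line (a e : ℝ) (q z u v : V) : HasDerivAt (fun t : ℝ => gf a e (q + t • z) u v)
    (dS z u * dS q v + dS q u * dS z v
      + -(2 * a) * H a (w q) / w q * (2 * dS q z) * (u 10 * v 10 + u 11 * v 11)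
      + (-(2 + 4 * a) * K a e (w q) / w q * (2 * dS q z) * (th q u * th q v)
        + K a e (w q) * (-(z 10 * u 11) * th q v + th q u * (-(z 10 * v 11))))) 0 := by
  have h0 : q + (0 : ℝ) • z = q := by simp
  have h1 := (dS_line q z u).mul (dS_line q z v)
  have h2 := (H_line a q z).mul_const (u 10 * v 10 + u 11 * v 11)
  have h3 := (K_line a e q z).mul ((th_line q z u).mul (th_line q z v))
  have h4 := (((h1.const_add (dS u v))).add h2).add h3
  unfold gf
  convert! h4 using 1
  simp only [h0, Pi.mul_apply]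

theorem fderiv_gf (a e : ℝ) (q z u v : V) : fderiv ℝ (fun p => gf a e p u v) q z =
    dS z u * dS q v + dS q u * dS z v
      + -(2 * a) * H a (w q) / w q * (2 * dS q z) * (u 10 * v 10 + u 11 * v 11)
      + (-(2 + 4 * a) * K a e (w q) / w q * (2 * dS q z) * (th q u * th q v)
        + K a e (w q) * (-(z 10 * u 11) * th q v + th q u * (-(z 10 * v 11)))) :=
  fderiv_eq_of_line ((contDiff_gf a e u v).differentiable (by simp)).differentiableAt
    (gf_line a e q z u v)

/-- the quotient of the coefficients `K` and `H` -/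
noncomputable def kap (a e : ℝ) (t : ℝ) : ℝ := e ^ 2 * t ^ (-(2 + 2 * a))

theorem K_eq (a e : ℝ) {t : ℝ} (ht : 0 < t) : K a e t = kap a e t * H a t := by
  unfold K kap H
  rw [mul_assoc, ← Real.rpow_add ht]
  congr 2
  ring

/-- coefficient of `y` in the Christoffel symbols -/
noncomputable def tau (a e : ℝ) (q u v : V) : ℝ :=
  (dS u v + 2 * a / w q * (H a (w q) * (u 10 * v 10 + u 11 * v 11))
    + (2 + 4 * a) / w q * (K a e (w q) * (th q u * th q v))) / w q

/-- coefficient of `∂₁` -/
noncomputable def G1 (a e : ℝ) (q u v : V) : ℝ :=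
  -(2 * a / w q) * (dS q u * v 10 + dS q v * u 10)
    + kap a e (w q) / 2 * (u 11 * th q v + v 11 * th q u)

/-- coefficient of `∂₂ + x₁ ∂₃` -/
noncomputable def G2 (a e : ℝ) (q u v : V) : ℝ :=
  -(2 * a / w q) * (dS q u * v 11 + dS q v * u 11)
    - kap a e (w q) / 2 * (u 10 * th q v + v 10 * th q u)

/-- coefficient of `∂₃` -/
noncomputable def G3 (a : ℝ) (q u v : V) : ℝ :=
  -((2 + 4 * a) / w q) * (dS q u * th q v + dS q v * th q u) - (u 10 * v 11 + v 10 * u 11) / 2

/-- the Christoffel symbols -/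
noncomputable def Gm (a e : ℝ) (q u v : V) : V :=
  tau a e q u v • PS q + Pi.single 10 (G1 a e q u v) + Pi.single 11 (G2 a e q u v)
    + Pi.single 12 (G3 a q u v + q 10 * G2 a e q u v)

theorem Gm_10 (a e : ℝ) (q u v : V) : Gm a e q u v 10 = G1 a e q u v := by
  simp [Gm, PS]

theorem Gm_11 (a e : ℝ) (q u v : V) : Gm a e q u v 11 = G2 a e q u v := by
  simp [Gm, PS]

theorem Gm_12 (a e : ℝ) (q u v : V) :
    Gm a e q u v 12 = G3 a q u v + q 10 * G2 a e q u v := by
  simp [Gm, PS]

theorem th_Gm (a e : ℝ) (q u v : V) : th q (Gm a e q u v) = G3 a q u v := by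
  unfold th
  rw [Gm_11, Gm_12]
  ring

theorem dS_single_right (u : V) (i : Fin 13) (hi : ¬ i.val < 10) (c : ℝ) :
    dS u (Pi.single i c) = 0 := by
  unfold dS
  refine Finset.sum_eq_zero fun j _ => ?_
  split_ifs with h
  · rw [Pi.single_eq_of_ne (by rintro rfl; exact hi h), mul_zero]
  · rfl

theorem dS_Gm (a e : ℝ) (z q u v : V) : dS z (Gm a e q u v) = tau a e q u v * dS z q := by
  unfold Gm
  rw [dS_add_right, dS_add_right, dS_add_right, dS_smul_right, dS_PS,
    dS_single_right _ _ (by decide), dS_single_right _ _ (by decide),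
    dS_single_right _ _ (by decide)]
  ring

theorem dS_self_eq (q : V) : dS q q = w q - 1 := by unfold w; ring

theorem Gam_G (a e : ℝ) (he : e ≠ 0) (q u v : V) : (G a e he).Gam q u v = Gm a e q u v := by
  apply RMetric.Gam_eq
  intro z
  simp only [G_form]
  rw [fderiv_gf, fderiv_gf, fderiv_gf]
  have hw := (w_pos q).ne'
  unfold gf
  rw [dS_comm (Gm a e q u v) z, dS_Gm, dS_Gm, Gm_10, Gm_11, th_Gm, dS_self_eq,
    K_eq a e (w_pos q)]
  unfold tau G1 G2 G3
  rw [K_eq a e (w_pos q)]
  rw [dS_comm v u, dS_comm z q, dS_comm v z, dS_comm u z]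
  field_simp
  ring

end Pool.Agent.TH597.BL
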