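import Mathlib

set_option autoImplicit false

/-! An inequality for pairs of isometries of a Hilbert space satisfying the Heisenberg relation. -/

namespace Pool.Agent.TH597.BL

open Finset

theorem comm_pow_one {M : Type*} [Monoid M] {A B C : M} (h : A * B = C * B * A)
    (hB : Commute C B) (k : ℕ) : A * B ^ k = C ^ k * B ^ k * A := by
  induction k with
  | zero => simp
  | succ k ih =>
    have h1 : B ^ k * C = C * B ^ k := (hB.pow_right k).eq.symm
    calc A * B ^ (k + 1) = (A * B ^ k) * B := by rw [pow_succ, mul_assoc]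
      _ = C ^ k * B ^ k * (A * B) := by rw [ih, mul_assoc]
      _ = C ^ k * (B ^ k * C) * B * A := by rw [h]; simp only [mul_assoc]
      _ = C ^ k * (C * B ^ k) * B * A := by rw [h1]
      _ = C ^ (k + 1) * B ^ (k + 1) * A := by rw [pow_succ, pow_succ]; simp only [mul_assoc]

theorem comm_pow {M : Type*} [Monoid M] {A B C : M} (h : A * B = C * B * A)
    (hA : Commute C A) (hB : Commute C B) (m k : ℕ) :
    A ^ m * B ^ k = C ^ (m * k) * B ^ k * A ^ m := by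
  induction m with
  | zero => simp
  | succ m ih =>
    have h1 : A * C ^ (m * k) = C ^ (m * k) * A := (hA.symm.pow_right (m * k)).eq
    calc A ^ (m + 1) * B ^ k = A * (A ^ m * B ^ k) := by rw [pow_succ', mul_assoc]
      _ = (A * C ^ (m * k)) * B ^ k * A ^ m := by rw [ih]; simp only [mul_assoc]
      _ = C ^ (m * k) * (A * B ^ k) * A ^ m := by rw [h1]; simp only [mul_assoc]
      _ = C ^ (m * k) * (C ^ k * B ^ k * A) * A ^ m := by rw [comm_pow_one h hB]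
      _ = C ^ ((m + 1) * k) * B ^ k * A ^ (m + 1) := by
        rw [add_mul, one_mul, pow_add, pow_succ' A m]; simp only [mul_assoc]

section

variable {E : Type*} [NormedAddCommGroup E] [InnerProductSpace ℂ E]

theorem iter_le (A : E →ₗᵢ[ℂ] E) (x : E) (m : ℕ) : ‖(A ^ m) x - x‖ ≤ m * ‖A x - x‖ := by
  induction m with
  | zero => simp
  | succ m ih =>
    have h1 : (A ^ (m + 1)) x - x = A ((A ^ m) x - x) + (A x - x) := by
      rw [pow_succ', LinearIsometry.coe_mul, Function.comp_apply, map_sub]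
      abel
    rw [h1]
    refine (norm_add_le _ _).trans ?_
    rw [A.norm_map]
    push_cast
    linarith

theorem eig_pow {C : E →ₗᵢ[ℂ] E} {x : E} {ω : ℂ} (h : C x = ω • x) (k : ℕ) :
    (C ^ k) x = ω ^ k • x := by
  induction k with
  | zero => simp
  | succ k ih =>
    rw [pow_succ', LinearIsometry.coe_mul, Function.comp_apply, ih, map_smul, h, smul_smul,
      pow_succ]

theorem uncertainty {A B C : E →ₗᵢ[ℂ] E} (h : A * B = C * B * A)
    (hA : Commute C A) (hB : Commute C B) {x : E} {ω : ℂ} (hx : C x = ω • x) (m : ℕ) :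
    ‖ω ^ (m * m) - 1‖ * ‖x‖ ≤ 2 * m * (‖A x - x‖ + ‖B x - x‖) := by
  have h1 : (A ^ m) ((B ^ m) x) = ω ^ (m * m) • (B ^ m) ((A ^ m) x) := by
    have h2 := comm_pow h hA hB m m
    have h3 : (A ^ m * B ^ m) x = (C ^ (m * m) * B ^ m * A ^ m) x := by rw [h2]
    have hcom : C ^ (m * m) * B ^ m * A ^ m = B ^ m * A ^ m * C ^ (m * m) := by
      have c1 : Commute (C ^ (m * m)) (B ^ m) := (hB.pow_pow _ _)
      have c2 : Commute (C ^ (m * m)) (A ^ m) := (hA.pow_pow _ _)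
      rw [c1.eq, mul_assoc, c2.eq, ← mul_assoc]
    rw [hcom] at h3
    simp only [LinearIsometry.coe_mul, Function.comp_apply] at h3
    rw [h3, eig_pow hx, map_smul, map_smul]
  have h4 : (ω ^ (m * m) - 1) • (B ^ m) ((A ^ m) x) =
      (A ^ m) ((B ^ m) x - x) + ((A ^ m) x - x) - ((B ^ m) x - x) - (B ^ m) ((A ^ m) x - x) := by
    rw [sub_smul, ← h1, map_sub, map_sub, one_smul]
    abel
  have h5 : ‖(ω ^ (m * m) - 1) • (B ^ m) ((A ^ m) x)‖ = ‖ω ^ (m * m) - 1‖ * ‖x‖ := by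
    rw [norm_smul, LinearIsometry.norm_map, LinearIsometry.norm_map]
  rw [← h5, h4]
  have hAm := iter_le A x m
  have hBm := iter_le B x m
  calc ‖(A ^ m) ((B ^ m) x - x) + ((A ^ m) x - x) - ((B ^ m) x - x) - (B ^ m) ((A ^ m) x - x)‖
      ≤ ‖(A ^ m) ((B ^ m) x - x)‖ + ‖(A ^ m) x - x‖ + ‖(B ^ m) x - x‖
        + ‖(B ^ m) ((A ^ m) x - x)‖ := by
        refine (norm_sub_le _ _).trans (add_le_add ?_ le_rfl)
        refine (norm_sub_le _ _).trans (add_le_add ?_ le_rfl)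
        exact norm_add_le _ _
    _ = 2 * (‖(A ^ m) x - x‖ + ‖(B ^ m) x - x‖) := by
        rw [LinearIsometry.norm_map, LinearIsometry.norm_map]; ring
    _ ≤ 2 * (m * ‖A x - x‖ + m * ‖B x - x‖) := by gcongr
    _ = _ := by ring

theorem norm_exp_sub_one_sq (t : ℝ) : ‖Complex.exp (t * Complex.I) - 1‖ ^ 2 =
    2 - 2 * Real.cos t := by
  have h1 : Complex.exp (t * Complex.I) - 1 = ⟨Real.cos t - 1, Real.sin t⟩ := by
    apply Complex.ext
    · simp [Complex.exp_ofReal_mul_I_re]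
    · simp [Complex.exp_ofReal_mul_I_im]
  rw [h1, ← Complex.normSq_eq_norm_sq, Complex.normSq_mk]
  nlinarith [Real.sin_sq_add_cos_sq t]

theorem exists_mul {θ : ℝ} (h0 : 0 < θ) (h1 : θ ≤ Real.pi) :
    ∃ m : ℕ, Real.pi / 4 ≤ (m * m : ℕ) * θ ∧ (m * m : ℕ) * θ ≤ Real.pi := by
  have hex : ∃ m : ℕ, Real.pi / 4 ≤ (m * m : ℕ) * θ := by
    obtain ⟨m, hm⟩ := exists_nat_ge (Real.pi / 4 / θ)
    refine ⟨m, ?_⟩
    rw [div_le_iff₀ h0] at hm
    refine hm.trans (mul_le_mul_of_nonneg_right ?_ h0.le)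
    exact_mod_cast Nat.le_mul_self m
  classical
  set m := Nat.find hex with hm
  have hm1 := Nat.find_spec hex
  rw [← hm] at hm1
  refine ⟨m, hm1, ?_⟩
  have hm0 : m ≠ 0 := by
    intro h
    rw [h] at hm1
    have := Real.pi_pos
    norm_num at hm1
    linarith
  by_cases hm2 : m = 1
  · rw [hm2]
    simpa using h1
  · have hlt : m - 1 < Nat.find hex := by omega
    have h3 := Nat.find_min hex hlt
    push Not at h3
    have h4 : m ≤ 2 * (m - 1) := by omega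
    have h5 : m * m ≤ 4 * ((m - 1) * (m - 1)) := by nlinarith
    have h6 : ((m * m : ℕ) : ℝ) ≤ 4 * (((m - 1) * (m - 1) : ℕ) : ℝ) := by exact_mod_cast h5
    calc ((m * m : ℕ) : ℝ) * θ ≤ 4 * (((m - 1) * (m - 1) : ℕ) : ℝ) * θ :=
          mul_le_mul_of_nonneg_right h6 h0.le
      _ = 4 * ((((m - 1) * (m - 1) : ℕ) : ℝ) * θ) := by ring
      _ ≤ 4 * (Real.pi / 4) := by gcongr
      _ = Real.pi := by ring

theorem uncertainty' {A B C : E →ₗᵢ[ℂ] E} (h : A * B = C * B * A)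
    (hA : Commute C A) (hB : Commute C B) {x : E} {θ : ℝ} (hθ : |θ| ≤ Real.pi)
    (hx : C x = Complex.exp (θ * Complex.I) • x) :
    |θ| * ‖x‖ ^ 2 ≤ 64 * (‖A x - x‖ ^ 2 + ‖B x - x‖ ^ 2) := by
  rcases (abs_nonneg θ).eq_or_lt with h0 | h0
  · rw [← h0, zero_mul]; positivity
  obtain ⟨m, hm1, hm2⟩ := exists_mul h0 hθ
  have hu := uncertainty h hA hB hx m
  have e1 : Complex.exp (θ * Complex.I) ^ (m * m) - 1 =
      Complex.exp (((m * m : ℕ) * θ : ℝ) * Complex.I) - 1 := by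
    rw [← Complex.exp_nat_mul]
    congr 2
    push_cast
    ring
  have hn : 1 / 2 ≤ ‖Complex.exp (θ * Complex.I) ^ (m * m) - 1‖ ^ 2 := by
    rw [e1, norm_exp_sub_one_sq]
    have hcos : Real.cos ((m * m : ℕ) * θ) = Real.cos ((m * m : ℕ) * |θ|) := by
      rcases abs_choice θ with h2 | h2
      · rw [h2]
      · rw [h2, mul_neg, Real.cos_neg]
    rw [hcos]
    have h3 : Real.cos ((m * m : ℕ) * |θ|) ≤ Real.cos (Real.pi / 4) :=
      Real.cos_le_cos_of_nonneg_of_le_pi (by positivity) hm2 hm1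
    rw [Real.cos_pi_div_four] at h3
    have h4 : Real.sqrt 2 ≤ 3 / 2 := by
      rw [Real.sqrt_le_left (by norm_num)]
      norm_num
    linarith
  have hmpi : (m : ℝ) ^ 2 * |θ| ≤ Real.pi := by
    have : ((m * m : ℕ) : ℝ) = (m : ℝ) ^ 2 := by push_cast; ring
    rw [← this]
    exact hm2
  have hpi := Real.pi_lt_four
  set α := ‖A x - x‖
  set β := ‖B x - x‖
  have hα : 0 ≤ α := norm_nonneg _
  have hβ : 0 ≤ β := norm_nonneg _
  have hsq : ‖Complex.exp (θ * Complex.I) ^ (m * m) - 1‖ ^ 2 * ‖x‖ ^ 2 ≤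
      4 * (m : ℝ) ^ 2 * (α + β) ^ 2 := by
    have := pow_le_pow_left₀ (by positivity) hu 2
    calc _ = (‖Complex.exp (θ * Complex.I) ^ (m * m) - 1‖ * ‖x‖) ^ 2 := by ring
      _ ≤ _ := this
      _ = _ := by ring
  have h5 : (α + β) ^ 2 ≤ 2 * (α ^ 2 + β ^ 2) := by nlinarith [sq_nonneg (α - β)]
  have h6 : 1 / 2 * ‖x‖ ^ 2 ≤ 8 * (m : ℝ) ^ 2 * (α ^ 2 + β ^ 2) := by
    calc 1 / 2 * ‖x‖ ^ 2 ≤ ‖Complex.exp (θ * Complex.I) ^ (m * m) - 1‖ ^ 2 * ‖x‖ ^ 2 := by gcongr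
      _ ≤ 4 * (m : ℝ) ^ 2 * (α + β) ^ 2 := hsq
      _ ≤ 4 * (m : ℝ) ^ 2 * (2 * (α ^ 2 + β ^ 2)) := by gcongr
      _ = _ := by ring
  calc |θ| * ‖x‖ ^ 2 = 2 * |θ| * (1 / 2 * ‖x‖ ^ 2) := by ring
    _ ≤ 2 * |θ| * (8 * (m : ℝ) ^ 2 * (α ^ 2 + β ^ 2)) := by gcongr
    _ = 16 * ((m : ℝ) ^ 2 * |θ|) * (α ^ 2 + β ^ 2) := by ring
    _ ≤ 16 * 4 * (α ^ 2 + β ^ 2) := by
        gcongr
        linarith
    _ = _ := by ring

/-- the sum over the dyadic scales -/
theorem sum_cos_le (J : ℕ) : ∀ t : ℝ,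
    (∑ j ∈ range J, (1 / 2 : ℝ) ^ j * (2 - 2 * Real.cos (2 ^ j * t)) ≤ 8) ∧
    (|t| ≤ 2 → ∑ j ∈ range J, (1 / 2 : ℝ) ^ j * (2 - 2 * Real.cos (2 ^ j * t)) ≤
      9 * |t| - t ^ 2) := by
  induction J with
  | zero =>
    intro t
    simp only [range_zero, sum_empty]
    refine ⟨by norm_num, fun ht => ?_⟩
    rw [← sq_abs]
    nlinarith [abs_nonneg t]
  | succ J ih =>
    intro t
    have hrec : ∑ j ∈ range (J + 1), (1 / 2 : ℝ) ^ j * (2 - 2 * Real.cos (2 ^ j * t)) =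
        1 / 2 * (∑ j ∈ range J, (1 / 2 : ℝ) ^ j * (2 - 2 * Real.cos (2 ^ j * (2 * t))))
          + (2 - 2 * Real.cos t) := by
      rw [sum_range_succ', mul_sum]
      congr 1
      · refine sum_congr rfl fun j _ => ?_
        rw [show (2 : ℝ) ^ (j + 1) * t = 2 ^ j * (2 * t) by ring, pow_succ]
        ring
      · simp
    rw [hrec]
    obtain ⟨i1, i2⟩ := ih (2 * t)
    have hc1 := Real.neg_one_le_cos t
    have hc2 := Real.one_sub_sq_div_two_le_cos (x := t)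
    have h8 : 1 / 2 * (∑ j ∈ range J, (1 / 2 : ℝ) ^ j * (2 - 2 * Real.cos (2 ^ j * (2 * t))))
        + (2 - 2 * Real.cos t) ≤ 8 := by linarith
    refine ⟨h8, fun ht => ?_⟩
    by_cases h1 : |t| ≤ 1
    · have h2 : |2 * t| ≤ 2 := by
        rw [abs_mul, abs_of_pos (by norm_num : (0 : ℝ) < 2)]
        linarith
      have h3 := i2 h2
      rw [abs_mul, abs_of_pos (by norm_num : (0 : ℝ) < 2)] at h3
      nlinarith
    · push Not at h1
      rw [← sq_abs]
      nlinarith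

theorem sum_cos_le' (J : ℕ) (t : ℝ) :
    ∑ j ∈ range J, (1 / 2 : ℝ) ^ j * (2 - 2 * Real.cos (2 ^ j * t)) ≤ 9 * |t| := by
  obtain ⟨h1, h2⟩ := sum_cos_le J t
  by_cases ht : |t| ≤ 2
  · have := h2 ht
    nlinarith [sq_nonneg t]
  · push Not at ht
    linarith

/-- the inequality for eigenvectors of the central element -/
theorem eig_ineq {A B C : E →ₗᵢ[ℂ] E} (h : A * B = C * B * A)
    (hA : Commute C A) (hB : Commute C B) {x : E} {ω : ℂ} (hω : ‖ω‖ = 1)
    (hx : C x = ω • x) (J : ℕ) :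
    ∑ j ∈ range J, (1 / 2 : ℝ) ^ j * ‖(C ^ (2 ^ j)) x - x‖ ^ 2 ≤
      576 * (‖A x - x‖ ^ 2 + ‖B x - x‖ ^ 2) := by
  obtain ⟨θ, hθ, rfl⟩ : ∃ θ : ℝ, |θ| ≤ Real.pi ∧ ω = Complex.exp (θ * Complex.I) := by
    refine ⟨Complex.arg ω, Complex.abs_arg_le_pi ω, ?_⟩
    have := Complex.norm_mul_exp_arg_mul_I ω
    rw [hω] at this
    simpa using this.symm
  have h1 : ∀ j : ℕ, ‖(C ^ (2 ^ j)) x - x‖ ^ 2 = (2 - 2 * Real.cos (2 ^ j * θ)) * ‖x‖ ^ 2 := by
    intro j
    rw [eig_pow hx, ← Complex.exp_nat_mul]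
    have e1 : Complex.exp (((2 ^ j : ℕ) : ℂ) * (θ * Complex.I)) • x - x =
        (Complex.exp (((2 ^ j * θ : ℝ) : ℂ) * Complex.I) - 1) • x := by
      rw [sub_smul, one_smul]
      congr 3
      push_cast
      ring
    rw [e1, norm_smul, mul_pow, norm_exp_sub_one_sq]
  calc ∑ j ∈ range J, (1 / 2 : ℝ) ^ j * ‖(C ^ (2 ^ j)) x - x‖ ^ 2
      = (∑ j ∈ range J, (1 / 2 : ℝ) ^ j * (2 - 2 * Real.cos (2 ^ j * θ))) * ‖x‖ ^ 2 := by
        rw [sum_mul]
        refine sum_congr rfl fun j _ => ?_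
        rw [h1]; ring
    _ ≤ 9 * |θ| * ‖x‖ ^ 2 := mul_le_mul_of_nonneg_right (sum_cos_le' J θ) (sq_nonneg _)
    _ = 9 * (|θ| * ‖x‖ ^ 2) := by ring
    _ ≤ 9 * (64 * (‖A x - x‖ ^ 2 + ‖B x - x‖ ^ 2)) :=
        mul_le_mul_of_nonneg_left (uncertainty' h hA hB hθ hx) (by norm_num)
    _ = _ := by ring

/-! ### Spectral decomposition of an isometry of finite order -/

/-- root of unity -/
noncomputable def zt (M : ℕ) (i : ℕ) : ℂ := Complex.exp ((2 * Real.pi * i / M : ℝ) * Complex.I)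

theorem norm_zt (M i : ℕ) : ‖zt M i‖ = 1 := Complex.norm_exp_ofReal_mul_I _

theorem zt_ne_zero (M i : ℕ) : zt M i ≠ 0 := Complex.exp_ne_zero _

theorem zt_pow (M i k : ℕ) : zt M i ^ k = zt M k ^ i := by
  unfold zt
  rw [← Complex.exp_nat_mul, ← Complex.exp_nat_mul]
  congr 1
  push_cast
  ring

theorem zt_pow_M {M : ℕ} (hM : 0 < M) (i : ℕ) : zt M i ^ M = 1 := by
  unfold zt
  rw [← Complex.exp_nat_mul]
  have : (M : ℂ) * (((2 * Real.pi * i / M : ℝ) : ℂ) * Complex.I) =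
      (i : ℤ) * (2 * Real.pi * Complex.I) := by
    have : (M : ℂ) ≠ 0 := by exact_mod_cast hM.ne'
    push_cast
    field_simp
  rw [this, Complex.exp_int_mul_two_pi_mul_I]

theorem zt_inj {M : ℕ} (hM : 0 < M) {i j : ℕ} (hi : i < M) (hj : j < M) (h : zt M i = zt M j) :
    i = j := by
  unfold zt at h
  rw [Complex.exp_eq_exp_iff_exists_int] at h
  obtain ⟨n, hn⟩ := h
  have hM' : (M : ℝ) ≠ 0 := by exact_mod_cast hM.ne'
  have h1 : ((2 * Real.pi * i / M : ℝ) : ℂ) * Complex.I =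
      ((2 * Real.pi * j / M + n * (2 * Real.pi) : ℝ) : ℂ) * Complex.I := by
    rw [hn]
    push_cast
    ring
  have h2 := mul_right_cancel₀ Complex.I_ne_zero h1
  have h3 : (2 * Real.pi * i / M : ℝ) = 2 * Real.pi * j / M + n * (2 * Real.pi) := by
    exact_mod_cast h2
  have hpi : (2 * Real.pi : ℝ) ≠ 0 := by positivity
  have h4 : (i : ℝ) = j + n * M := by
    field_simp at h3
    linarith
  have h5 : (i : ℤ) = j + n * M := by exact_mod_cast h4
  have hn0 : n = 0 := by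
    by_contra hne
    rcases lt_or_gt_of_ne hne with h6 | h6
    · have : n ≤ -1 := by omega
      nlinarith
    · have : 1 ≤ n := by omega
      nlinarith
  rw [hn0] at h5
  omega

theorem orth {C : E →ₗᵢ[ℂ] E} {x y : E} {a b : ℂ} (ha : ‖a‖ = 1)
    (hab : a ≠ b) (hx : C x = a • x) (hy : C y = b • y) : inner ℂ x y = 0 := by
  have h1 := C.inner_map_map x y
  rw [hx, hy, inner_smul_left, inner_smul_right] at h1
  have h2 : ((starRingEnd ℂ) a * b - 1) * inner ℂ x y = 0 := by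
    linear_combination h1
  rcases mul_eq_zero.mp h2 with h3 | h3
  · exfalso
    apply hab
    have h4 : a * (starRingEnd ℂ) a = 1 := by
      rw [Complex.mul_conj, Complex.normSq_eq_norm_sq, ha]
      simp
    have h5 : a * ((starRingEnd ℂ) a * b) = a * 1 := by
      rw [sub_eq_zero.mp h3]
    rw [← mul_assoc, h4, one_mul, mul_one] at h5
    exact h5.symm
  · exact h3

theorem parseval {C : E →ₗᵢ[ℂ] E} {M : ℕ} (hM : 0 < M) {u : ℕ → E}
    (hu : ∀ i < M, C (u i) = zt M i • u i) {m : ℕ} (hm : m ≤ M) :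
    ‖∑ i ∈ range m, u i‖ ^ 2 = ∑ i ∈ range m, ‖u i‖ ^ 2 := by
  induction m with
  | zero => simp
  | succ m ih =>
    rw [sum_range_succ, sum_range_succ]
    have h0 : inner ℂ (∑ i ∈ range m, u i) (u m) = 0 := by
      rw [sum_inner]
      refine sum_eq_zero fun i hi => ?_
      have him : i < m := mem_range.mp hi
      apply orth (norm_zt M i) _ (hu i (by omega)) (hu m (by omega))
      intro he
      have := zt_inj hM (by omega) (by omega) he
      omega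
    have h1 := norm_add_sq_eq_norm_sq_add_norm_sq_of_inner_eq_zero _ _ h0
    rw [← ih (by omega), sq, sq, sq]
    exact h1

/-- spectral projections -/
noncomputable def PP (C : E →ₗᵢ[ℂ] E) (M i : ℕ) (x : E) : E :=
  (M : ℂ)⁻¹ • ∑ k ∈ range M, ((zt M i)⁻¹) ^ k • (C ^ k) x

theorem PP_eig {C : E →ₗᵢ[ℂ] E} {M : ℕ} (hM : 0 < M) (hC : C ^ M = 1) (i : ℕ) (x : E) :
    C (PP C M i x) = zt M i • PP C M i x := by
  unfold PP
  rw [map_smul, map_sum, smul_comm]
  congr 1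
  have h1 : ∀ k, C (((zt M i)⁻¹) ^ k • (C ^ k) x) =
      zt M i • (((zt M i)⁻¹) ^ (k + 1) • (C ^ (k + 1)) x) := by
    intro k
    have hz := zt_ne_zero M i
    rw [map_smul, smul_smul, pow_succ' C k, LinearIsometry.coe_mul, Function.comp_apply,
      pow_succ' _ k, ← mul_assoc, mul_inv_cancel₀ hz, one_mul]
  rw [sum_congr rfl fun k _ => h1 k, ← smul_sum]
  congr 1
  have h2 := sum_range_succ (fun k => ((zt M i)⁻¹) ^ k • (C ^ k) x) M
  have h3 := sum_range_succ' (fun k => ((zt M i)⁻¹) ^ k • (C ^ k) x) M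
  rw [h3] at h2
  have h4 : ((zt M i)⁻¹) ^ M • (C ^ M) x = ((zt M i)⁻¹) ^ 0 • (C ^ 0) x := by
    rw [hC, inv_pow, zt_pow_M hM]
    simp
  rw [h4] at h2
  exact add_right_cancel h2

theorem PP_sum {C : E →ₗᵢ[ℂ] E} {M : ℕ} (hM : 0 < M) (x : E) :
    ∑ i ∈ range M, PP C M i x = x := by
  unfold PP
  rw [← smul_sum, sum_comm]
  have h1 : ∀ k ∈ range M, ∑ i ∈ range M, ((zt M i)⁻¹) ^ k • (C ^ k) x =
      if k = 0 then (M : ℂ) • x else 0 := by
    intro k hk
    rw [← sum_smul]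
    split_ifs with h0
    · subst h0
      simp
    · have hk' : k < M := mem_range.mp hk
      have h2 : ∀ i, ((zt M i)⁻¹) ^ k = ((zt M k)⁻¹) ^ i := by
        intro i
        rw [inv_pow, inv_pow, zt_pow]
      simp only [h2]
      have h3 : (zt M k)⁻¹ ≠ 1 := by
        intro h
        have h4 : zt M k = zt M 0 := by
          rw [inv_eq_one.mp h]
          simp [zt]
        exact h0 (zt_inj hM hk' hM h4)
      have h5 : (∑ i ∈ range M, ((zt M k)⁻¹) ^ i) * ((zt M k)⁻¹ - 1) = ((zt M k)⁻¹) ^ M - 1 :=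
        geom_sum_mul _ _
      rw [inv_pow, zt_pow_M hM, inv_one, sub_self] at h5
      rcases mul_eq_zero.mp h5 with h6 | h6
      · rw [h6, zero_smul]
      · exact absurd (sub_eq_zero.mp h6) h3
  rw [sum_congr rfl h1, sum_ite_eq' (range M) 0 (fun _ => (M : ℂ) • x),
    if_pos (mem_range.mpr hM), smul_smul, inv_mul_cancel₀ (by exact_mod_cast hM.ne'), one_smul]

/-- The inequality for all vectors. -/
theorem abs_ineq {A B C : E →ₗᵢ[ℂ] E} (h : A * B = C * B * A)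
    (hA : Commute C A) (hB : Commute C B) {M : ℕ} (hM : 0 < M) (hC : C ^ M = 1) (x : E) (J : ℕ) :
    ∑ j ∈ range J, (1 / 2 : ℝ) ^ j * ‖(C ^ (2 ^ j)) x - x‖ ^ 2 ≤
      576 * (‖A x - x‖ ^ 2 + ‖B x - x‖ ^ 2) := by
  set u : ℕ → E := fun i => PP C M i x with hu
  have hue : ∀ i, C (u i) = zt M i • u i := fun i => PP_eig hM hC i x
  have hux : ∑ i ∈ range M, u i = x := PP_sum hM x
  have key : ∀ T : E →ₗᵢ[ℂ] E, Commute C T →
      ‖T x - x‖ ^ 2 = ∑ i ∈ range M, ‖T (u i) - u i‖ ^ 2 := by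
    intro T hT
    have hpar := parseval (C := C) hM (u := fun i => T (u i) - u i) (fun i _ => by
      have h1 : C (T (u i)) = T (C (u i)) := by
        have : (C * T) (u i) = (T * C) (u i) := by rw [hT.eq]
        simpa only [LinearIsometry.coe_mul, Function.comp_apply] using this
      rw [map_sub, h1, hue, map_smul, smul_sub]) (le_refl M)
    rw [← hpar, sum_sub_distrib, ← map_sum, hux]
  have h2 : ∀ j, ‖(C ^ (2 ^ j)) x - x‖ ^ 2 = ∑ i ∈ range M, ‖(C ^ (2 ^ j)) (u i) - u i‖ ^ 2 :=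
    fun j => key _ ((Commute.refl C).pow_right _)
  rw [key A hA, key B hB, ← sum_add_distrib, mul_sum]
  calc ∑ j ∈ range J, (1 / 2 : ℝ) ^ j * ‖(C ^ (2 ^ j)) x - x‖ ^ 2
      = ∑ i ∈ range M, ∑ j ∈ range J, (1 / 2 : ℝ) ^ j * ‖(C ^ (2 ^ j)) (u i) - u i‖ ^ 2 := by
        rw [sum_comm]
        refine sum_congr rfl fun j _ => ?_
        rw [h2, mul_sum]
    _ ≤ _ := sum_le_sum fun i _ => eig_ineq h hA hB (norm_zt M i) (hue i) J

end

end Pool.Agent.TH597.BL
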