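import Pool.Agent.TH597.BL.Heis1

set_option autoImplicit false

/-! The inequality for finitely supported functions on the discrete Heisenberg group. -/

namespace Pool.Agent.TH597.BL

open Finset

/-- composition with a permutation -/
noncomputable def opr {ι : Type} [Fintype ι] (s : Equiv.Perm ι) :
    EuclideanSpace ℂ ι →ₗᵢ[ℂ] EuclideanSpace ℂ ι where
  toFun φ := WithLp.toLp 2 (fun i => φ (s i))
  map_add' _ _ := rfl
  map_smul' _ _ := rfl
  norm_map' φ := by
    rw [EuclideanSpace.norm_eq, EuclideanSpace.norm_eq]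
    congr 1
    exact Equiv.sum_comp s (fun i => ‖φ i‖ ^ 2)

theorem opr_apply {ι : Type} [Fintype ι] (s : Equiv.Perm ι) (φ : EuclideanSpace ℂ ι) (i : ι) :
    opr s φ i = φ (s i) := rfl

theorem opr_mul {ι : Type} [Fintype ι] (s t : Equiv.Perm ι) : opr s * opr t = opr (t * s) := by
  apply LinearIsometry.ext
  intro φ
  apply PiLp.ext
  intro i
  rfl

theorem opr_one {ι : Type} [Fintype ι] : (opr (1 : Equiv.Perm ι)) = 1 := by
  apply LinearIsometry.ext
  intro φ
  apply PiLp.ext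
  intro i
  rfl

theorem opr_pow {ι : Type} [Fintype ι] (s : Equiv.Perm ι) (k : ℕ) : (opr s) ^ k = opr (s ^ k) := by
  induction k with
  | zero => rw [pow_zero, pow_zero, opr_one]
  | succ k ih => rw [pow_succ, ih, opr_mul, pow_succ']

section group

variable (M : ℕ)

/-- the finite Heisenberg group, as a set -/
abbrev GM : Type := ZMod M × ZMod M × ZMod M

/-- right multiplication by the first generator -/
def sA : Equiv.Perm (GM M) where
  toFun g := (g.1 + 1, g.2.1, g.2.2)
  invFun g := (g.1 - 1, g.2.1, g.2.2)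
  left_inv g := by ext <;> simp
  right_inv g := by ext <;> simp

/-- right multiplication by the second generator -/
def sB : Equiv.Perm (GM M) where
  toFun g := (g.1, g.2.1 + 1, g.2.2 + g.1)
  invFun g := (g.1, g.2.1 - 1, g.2.2 - g.1)
  left_inv g := by ext <;> simp
  right_inv g := by ext <;> simp

/-- right multiplication by the central generator -/
def sC : Equiv.Perm (GM M) where
  toFun g := (g.1, g.2.1, g.2.2 + 1)
  invFun g := (g.1, g.2.1, g.2.2 - 1)
  left_inv g := by ext <;> simp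
  right_inv g := by ext <;> simp

theorem sC_pow (k : ℕ) (g : GM M) : ((sC M) ^ k) g = (g.1, g.2.1, g.2.2 + k) := by
  induction k with
  | zero => simp
  | succ k ih =>
    rw [pow_succ', Equiv.Perm.mul_apply, ih]
    show (g.1, g.2.1, g.2.2 + k + 1) = _
    push_cast
    rw [add_assoc]

/-- extension to the product with a finite set -/
def ex {N : ℕ} (s : Equiv.Perm (GM M)) : Equiv.Perm (GM M × Fin N) :=
  s.prodCongr (Equiv.refl _)

theorem ex_apply {N : ℕ} (s : Equiv.Perm (GM M)) (p : GM M × Fin N) :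
    ex M s p = (s p.1, p.2) := rfl

theorem ex_pow {N : ℕ} (s : Equiv.Perm (GM M)) (k : ℕ) :
    (ex M s : Equiv.Perm (GM M × Fin N)) ^ k = ex M (s ^ k) := by
  induction k with
  | zero => rfl
  | succ k ih =>
    rw [pow_succ, ih, pow_succ]
    rfl

variable [NeZero M]

theorem fin_ineq {N : ℕ} (φ : EuclideanSpace ℂ (GM M × Fin N)) (J : ℕ) :
    ∑ j ∈ range J, (1 / 2 : ℝ) ^ j * ‖opr (ex M ((sC M) ^ (2 ^ j))) φ - φ‖ ^ 2 ≤
      576 * (‖opr (ex M (sA M)) φ - φ‖ ^ 2 + ‖opr (ex M (sB M)) φ - φ‖ ^ 2) := by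
  have hAB : opr (ex M (sA M)) * opr (ex M (sB M)) =
      opr (ex (N := N) M (sC M)) * opr (ex M (sB M)) * opr (ex M (sA M)) := by
    rw [opr_mul, opr_mul, opr_mul]
    congr 1
    apply Equiv.ext
    rintro ⟨⟨x, y, z⟩, i⟩
    show (((x + 1, y + 1, z + (x + 1)) : GM M), i) = (((x + 1, y + 1, z + 1 + x) : GM M), i)
    congr 3
    ring
  have hCA : Commute (opr (ex (N := N) M (sC M))) (opr (ex M (sA M))) := by
    show _ * _ = _ * _
    rw [opr_mul, opr_mul]
    congr 1
  have hCB : Commute (opr (ex (N := N) M (sC M))) (opr (ex M (sB M))) := by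
    show _ * _ = _ * _
    rw [opr_mul, opr_mul]
    congr 1
    apply Equiv.ext
    rintro ⟨⟨x, y, z⟩, i⟩
    show (((x, y + 1, z + 1 + x) : GM M), i) = (((x, y + 1, z + x + 1) : GM M), i)
    congr 3
    ring
  have hCM : (opr (ex (N := N) M (sC M))) ^ M = 1 := by
    rw [opr_pow, ← opr_one]
    congr 1
    rw [ex_pow]
    apply Equiv.ext
    rintro ⟨⟨x, y, z⟩, i⟩
    rw [ex_apply, sC_pow]
    simp
  have h := abs_ineq hAB hCA hCB (Nat.pos_of_ne_zero (NeZero.ne M)) hCM φ J
  simp only [opr_pow, ex_pow] at h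
  exact h

/-- points of the integer Heisenberg group -/
abbrev Z3 : Type := ℤ × ℤ × ℤ

/-- right multiplication by `a` -/
def siga (p : Z3) : Z3 := (p.1 + 1, p.2.1, p.2.2)

/-- right multiplication by `b` -/
def sigb (p : Z3) : Z3 := (p.1, p.2.1 + 1, p.2.2 + p.1)

/-- right multiplication by `c ^ k` -/
def sigc (k : ℤ) (p : Z3) : Z3 := (p.1, p.2.1, p.2.2 + k)

/-- reduction -/
def red (p : Z3) : GM M := ((p.1 : ZMod M), (p.2.1 : ZMod M), (p.2.2 : ZMod M))

/-- centred representatives -/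
def lft (g : GM M) : Z3 := (g.1.valMinAbs, g.2.1.valMinAbs, g.2.2.valMinAbs)

/-- points with small coordinates -/
def Small (p : Z3) : Prop := 2 * |p.1| < M ∧ 2 * |p.2.1| < M ∧ 2 * |p.2.2| < M

omit [NeZero M] in
theorem red_lft (g : GM M) : red M (lft M g) = g := by
  unfold red lft
  simp

theorem valMinAbs_of_small {x : ℤ} (h : 2 * |x| < M) : ((x : ZMod M)).valMinAbs = x := by
  apply (ZMod.valMinAbs_spec _ _).mpr
  refine ⟨rfl, ?_⟩
  rw [Set.mem_Ioc]
  constructor
  · have := neg_abs_le x; omega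
  · have := le_abs_self x; omega

theorem lft_red {p : Z3} (h : Small M p) : lft M (red M p) = p := by
  unfold red lft
  obtain ⟨h1, h2, h3⟩ := h
  simp only [valMinAbs_of_small M h1, valMinAbs_of_small M h2, valMinAbs_of_small M h3]

/-- the wrap-around has no effect on functions supported near the origin -/
theorem wrap {X : Type} [Zero X] (F : Z3 → X) (σ τ : Z3 → Z3) (s : GM M → GM M) (t : GM M → GM M)
    (hστ : ∀ p, σ (τ p) = p)
    (hs : ∀ p, red M (σ p) = s (red M p)) (ht : ∀ p, red M (τ p) = t (red M p))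
    (hts : ∀ g, t (s g) = g)
    (hF : ∀ p, F p ≠ 0 → Small M p ∧ Small M (τ p)) (g : GM M) :
    F (lft M (s g)) = F (σ (lft M g)) := by
  by_cases h : F (σ (lft M g)) = 0
  · rw [h]
    by_contra h2
    obtain ⟨h3, h4⟩ := hF _ h2
    have h5 := lft_red M h4
    rw [ht, red_lft, hts] at h5
    rw [← hστ (lft M (s g)), ← h5] at h2
    exact h2 h
  · obtain ⟨h3, h4⟩ := hF _ h
    have h5 := lft_red M h3
    rw [hs, red_lft] at h5
    rw [h5]

/-- the function on the finite group -/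
noncomputable def push {N : ℕ} (F : Z3 → EuclideanSpace ℝ (Fin N)) :
    EuclideanSpace ℂ (GM M × Fin N) :=
  WithLp.toLp 2 (fun gi => ((F (lft M gi.1) gi.2 : ℝ) : ℂ))

theorem norm_push {N : ℕ} (F : Z3 → EuclideanSpace ℝ (Fin N)) (σ : Z3 → Z3)
    (s : Equiv.Perm (GM M)) (h : ∀ g, F (lft M (s g)) = F (σ (lft M g))) :
    ‖opr (ex M s) (push M F) - push M F‖ ^ 2 =
      ∑ g : GM M, ‖F (σ (lft M g)) - F (lft M g)‖ ^ 2 := by
  rw [EuclideanSpace.norm_sq_eq, Fintype.sum_prod_type]
  refine Finset.sum_congr rfl fun g _ => ?_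
  rw [EuclideanSpace.norm_sq_eq]
  refine Finset.sum_congr rfl fun i _ => ?_
  rw [PiLp.sub_apply, PiLp.sub_apply, opr_apply, ex_apply]
  have h1 : (push M F) (s g, i) = ((F (σ (lft M g)) i : ℝ) : ℂ) := by
    rw [← h]; rfl
  have h2 : (push M F) (g, i) = ((F (lft M g) i : ℝ) : ℂ) := rfl
  rw [h1, h2, ← Complex.ofReal_sub, Complex.norm_real]

end group

/-- The inequality for functions on `ℤ³` that vanish outside of a finite set. -/
theorem supp_ineq {N : ℕ} (F : Z3 → EuclideanSpace ℝ (Fin N)) (r : ℤ)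
    (hF : ∀ p, F p ≠ 0 → |p.1| ≤ r ∧ |p.2.1| ≤ r ∧ |p.2.2| ≤ r) (J : ℕ) (T T' : Finset Z3)
    (hT : ∀ p ∈ T, |p.1| ≤ r ∧ |p.2.1| ≤ r ∧ |p.2.2| ≤ r)
    (hTa : ∀ p, F (siga p) - F p ≠ 0 → p ∈ T') (hTb : ∀ p, F (sigb p) - F p ≠ 0 → p ∈ T') :
    ∑ j ∈ range J, (1 / 2 : ℝ) ^ j * ∑ p ∈ T, ‖F (sigc (2 ^ j) p) - F p‖ ^ 2 ≤
      576 * (∑ p ∈ T', ‖F (siga p) - F p‖ ^ 2 + ∑ p ∈ T', ‖F (sigb p) - F p‖ ^ 2) := by
  -- a large modulus
  obtain ⟨M, hM⟩ : ∃ M : ℕ, 4 * |r| + 2 * 2 ^ J + 4 < (M : ℤ) :=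
    ⟨(4 * |r| + 2 * 2 ^ J + 5).toNat, by
      have : 0 ≤ 4 * |r| + 2 * 2 ^ J + 5 := by positivity
      rw [Int.toNat_of_nonneg this]
      linarith⟩
  have hM0 : M ≠ 0 := by
    rintro rfl
    have h1 : 0 ≤ |r| := abs_nonneg r
    have h2 : (0 : ℤ) < 2 ^ J := by positivity
    push_cast at hM
    linarith
  have : NeZero M := ⟨hM0⟩
  have hr := le_abs_self r
  have h2J : (0 : ℤ) < 2 ^ J := by positivity
  have hr0 := abs_nonneg r
  -- the wrap-around
  have wa : ∀ g, F (lft M ((sA M) g)) = F (siga (lft M g)) := by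
    apply wrap M F siga (fun p => (p.1 - 1, p.2.1, p.2.2)) (sA M) (sA M).symm
    · intro p; simp [siga]
    · intro p; simp [siga, red, sA]
    · intro p; simp [red, sA]
    · intro g; simp
    · intro p hp
      obtain ⟨h1, h2, h3⟩ := hF p hp
      refine ⟨⟨?_, ?_, ?_⟩, ?_, ?_, ?_⟩
      · linarith
      · linarith
      · linarith
      · show 2 * |p.1 - 1| < M
        have := abs_sub p.1 1
        rw [abs_one] at this
        linarith
      · show 2 * |p.2.1| < M
        linarith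
      · show 2 * |p.2.2| < M
        linarith
  have wb : ∀ g, F (lft M ((sB M) g)) = F (sigb (lft M g)) := by
    apply wrap M F sigb (fun p => (p.1, p.2.1 - 1, p.2.2 - p.1)) (sB M) (sB M).symm
    · intro p; simp [sigb]
    · intro p; simp [sigb, red, sB]
    · intro p; simp [red, sB]
    · intro g; simp
    · intro p hp
      obtain ⟨h1, h2, h3⟩ := hF p hp
      refine ⟨⟨?_, ?_, ?_⟩, ?_, ?_, ?_⟩
      · linarith
      · linarith
      · linarith
      · show 2 * |p.1| < M
        linarith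
      · show 2 * |p.2.1 - 1| < M
        have := abs_sub p.2.1 1
        rw [abs_one] at this
        linarith
      · show 2 * |p.2.2 - p.1| < M
        have := abs_sub p.2.2 p.1
        linarith
  have wc : ∀ j ∈ range J, ∀ g, F (lft M (((sC M) ^ (2 ^ j)) g)) = F (sigc (2 ^ j) (lft M g)) := by
    intro j hj
    have hj' : (2 : ℤ) ^ j ≤ 2 ^ J :=
      pow_le_pow_right₀ (by norm_num) (mem_range.mp hj).le
    have hj0 : (0 : ℤ) < 2 ^ j := by positivity
    have hsp : ∀ g, ((sC M) ^ (2 ^ j)) g = (g.1, g.2.1, g.2.2 + ((2 ^ j : ℕ) : ZMod M)) :=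
      fun g => sC_pow M (2 ^ j) g
    generalize ((sC M) ^ (2 ^ j)) = s at hsp ⊢
    apply wrap M F (sigc (2 ^ j)) (fun p => (p.1, p.2.1, p.2.2 - 2 ^ j)) s s.symm
    · intro p; simp [sigc]
    · intro p
      rw [hsp]
      simp [sigc, red]
    · intro p
      rw [Equiv.eq_symm_apply, hsp]
      simp [red]
    · intro g; simp
    · intro p hp
      obtain ⟨h1, h2, h3⟩ := hF p hp
      refine ⟨⟨?_, ?_, ?_⟩, ?_, ?_, ?_⟩
      · linarith
      · linarith
      · linarith
      · show 2 * |p.1| < M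
        linarith
      · show 2 * |p.2.1| < M
        linarith
      · show 2 * |p.2.2 - 2 ^ j| < M
        have := abs_sub p.2.2 (2 ^ j)
        rw [abs_of_pos hj0] at this
        linarith
  have main := fin_ineq M (push M F) J
  rw [norm_push M F siga _ wa, norm_push M F sigb _ wb] at main
  have hlinj : Function.Injective (lft M) := fun g g' h => by
    have := congrArg (red M) h
    rwa [red_lft, red_lft] at this
  have up : ∀ σ : Z3 → Z3, (∀ p, F (σ p) - F p ≠ 0 → p ∈ T') →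
      ∑ g : GM M, ‖F (σ (lft M g)) - F (lft M g)‖ ^ 2 ≤ ∑ p ∈ T', ‖F (σ p) - F p‖ ^ 2 := by
    intro σ hσ
    classical
    have h1 : ∑ g : GM M, ‖F (σ (lft M g)) - F (lft M g)‖ ^ 2 =
        ∑ g ∈ Finset.univ.filter (fun g : GM M => lft M g ∈ T'),
          ‖F (σ (lft M g)) - F (lft M g)‖ ^ 2 := by
      symm
      apply Finset.sum_subset (Finset.filter_subset _ _)
      intro g _ hg
      by_contra hne
      apply hg
      rw [Finset.mem_filter]
      refine ⟨Finset.mem_univ _, hσ _ ?_⟩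
      intro h0
      apply hne
      rw [h0]
      simp
    rw [h1, ← Finset.sum_image (f := fun p => ‖F (σ p) - F p‖ ^ 2)
      (fun g _ g' _ h => hlinj h)]
    apply Finset.sum_le_sum_of_subset_of_nonneg
    · intro p hp
      rw [Finset.mem_image] at hp
      obtain ⟨g, hg, rfl⟩ := hp
      exact (Finset.mem_filter.mp hg).2
    · intro _ _ _
      positivity
  have lo : ∀ σ : Z3 → Z3,
      ∑ p ∈ T, ‖F (σ p) - F p‖ ^ 2 ≤ ∑ g : GM M, ‖F (σ (lft M g)) - F (lft M g)‖ ^ 2 := by
    intro σ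
    classical
    have hTs : ∀ p ∈ T, lft M (red M p) = p := by
      intro p hp
      obtain ⟨h1, h2, h3⟩ := hT p hp
      exact lft_red M ⟨by linarith, by linarith, by linarith⟩
    have h1 : ∑ p ∈ T, ‖F (σ p) - F p‖ ^ 2 =
        ∑ g ∈ T.image (red M), ‖F (σ (lft M g)) - F (lft M g)‖ ^ 2 := by
      rw [Finset.sum_image]
      · refine Finset.sum_congr rfl fun p hp => ?_
        rw [hTs p hp]
      · intro p hp p' hp' h
        rw [← hTs p hp, ← hTs p' hp', h]
    rw [h1]
    apply Finset.sum_le_sum_of_subset_of_nonneg (Finset.subset_univ _)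
    intro _ _ _
    positivity
  calc ∑ j ∈ range J, (1 / 2 : ℝ) ^ j * ∑ p ∈ T, ‖F (sigc (2 ^ j) p) - F p‖ ^ 2
      ≤ ∑ j ∈ range J, (1 / 2 : ℝ) ^ j *
        ‖opr (ex M ((sC M) ^ (2 ^ j))) (push M F) - push M F‖ ^ 2 := by
        refine Finset.sum_le_sum fun j hj => ?_
        apply mul_le_mul_of_nonneg_left _ (by positivity)
        rw [norm_push M F (sigc (2 ^ j)) _ (wc j hj)]
        exact lo _
    _ ≤ _ := main
    _ ≤ _ := by
        have h1 := up siga hTa
        have h2 := up sigb hTb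
        linarith

end Pool.Agent.TH597.BL
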