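import Pool.Agent.TH597.BL.Heis2

set_option autoImplicit false

/-! The vertical versus horizontal inequality for Lipschitz maps on the discrete Heisenberg
group with values in a Euclidean space. -/

namespace Pool.Agent.TH597.BL

open Finset

section growth

variable {E : Type} [NormedAddCommGroup E] [NormedSpace ℝ E] {f : Z3 → E} {L : ℝ}
  (ha : ∀ p, ‖f (siga p) - f p‖ ≤ L) (hb : ∀ p, ‖f (sigb p) - f p‖ ≤ L)

include ha in
theorem stepA_nat (m : ℕ) (x y z : ℤ) : ‖f (x + m, y, z) - f (x, y, z)‖ ≤ m * L := by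
  induction m with
  | zero => simp
  | succ m ih =>
    have h1 := ha (x + m, y, z)
    have h2 : siga (x + m, y, z) = (x + (m + 1 : ℕ), y, z) := by
      simp only [siga, Prod.mk.injEq, and_true]
      push_cast
      ring
    rw [h2] at h1
    calc ‖f (x + (m + 1 : ℕ), y, z) - f (x, y, z)‖
        = ‖(f (x + (m + 1 : ℕ), y, z) - f (x + m, y, z)) + (f (x + m, y, z) - f (x, y, z))‖ := by
          congr 1; abel
      _ ≤ L + m * L := (norm_add_le _ _).trans (add_le_add h1 ih)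
      _ = _ := by push_cast; ring

include ha in
theorem stepA (m x y z : ℤ) : ‖f (x + m, y, z) - f (x, y, z)‖ ≤ |(m : ℝ)| * L := by
  rcases le_total 0 m with hm | hm
  · obtain ⟨k, rfl⟩ := Int.eq_ofNat_of_zero_le hm
    have := stepA_nat ha k x y z
    simpa using this
  · obtain ⟨k, hk⟩ := Int.eq_ofNat_of_zero_le (by omega : 0 ≤ -m)
    have hm' : m = -(k : ℤ) := by omega
    have := stepA_nat ha k (x + m) y z
    rw [hm'] at this ⊢
    rw [norm_sub_rev]
    simpa using this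

include hb in
theorem stepB_nat (m : ℕ) (x y z : ℤ) :
    ‖f (x, y + m, z + m * x) - f (x, y, z)‖ ≤ m * L := by
  induction m with
  | zero => simp
  | succ m ih =>
    have h1 := hb (x, y + m, z + m * x)
    have h2 : sigb (x, y + m, z + m * x) = (x, y + (m + 1 : ℕ), z + (m + 1 : ℕ) * x) := by
      simp only [sigb, Prod.mk.injEq, true_and]
      constructor <;> push_cast <;> ring
    rw [h2] at h1
    calc ‖f (x, y + (m + 1 : ℕ), z + (m + 1 : ℕ) * x) - f (x, y, z)‖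
        = ‖(f (x, y + (m + 1 : ℕ), z + (m + 1 : ℕ) * x) - f (x, y + m, z + m * x))
            + (f (x, y + m, z + m * x) - f (x, y, z))‖ := by
          congr 1; abel
      _ ≤ L + m * L := (norm_add_le _ _).trans (add_le_add h1 ih)
      _ = _ := by push_cast; ring

include hb in
theorem stepB (m x y z : ℤ) : ‖f (x, y + m, z + m * x) - f (x, y, z)‖ ≤ |(m : ℝ)| * L := by
  rcases le_total 0 m with hm | hm
  · obtain ⟨k, rfl⟩ := Int.eq_ofNat_of_zero_le hm
    have := stepB_nat hb k x y z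
    simpa using this
  · obtain ⟨k, hk⟩ := Int.eq_ofNat_of_zero_le (by omega : 0 ≤ -m)
    have hm' : m = -(k : ℤ) := by omega
    have := stepB_nat hb k x (y + m) (z + m * x)
    rw [hm'] at this ⊢
    rw [norm_sub_rev]
    simpa using this

include ha hb in
theorem stepC (m n x y z : ℤ) :
    ‖f (x, y, z + m * n) - f (x, y, z)‖ ≤ 2 * (|(m : ℝ)| + |(n : ℝ)|) * L := by
  have h1 := stepA ha m x y z
  have h2 := stepB hb n (x + m) y z
  have h3 := stepA ha (-m) (x + m) (y + n) (z + n * (x + m))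
  have h4 := stepB hb (-n) x (y + n) (z + n * (x + m))
  have e1 : ((x, y + n + -n, z + n * (x + m) + -n * x) : Z3) = (x, y, z + m * n) := by
    ext
    · rfl
    · show y + n + -n = y; ring
    · show z + n * (x + m) + -n * x = z + m * n; ring
  have e2 : ((x + m + -m, y + n, z + n * (x + m)) : Z3) = (x, y + n, z + n * (x + m)) := by
    ext
    · show x + m + -m = x; ring
    · rfl
    · rfl
  rw [e1] at h4
  rw [e2] at h3
  have hn3 : |((-m : ℤ) : ℝ)| = |(m : ℝ)| := by push_cast; exact abs_neg _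
  have hn4 : |((-n : ℤ) : ℝ)| = |(n : ℝ)| := by push_cast; exact abs_neg _
  rw [hn3] at h3
  rw [hn4] at h4
  calc ‖f (x, y, z + m * n) - f (x, y, z)‖
      = ‖(f (x, y, z + m * n) - f (x, y + n, z + n * (x + m)))
        + (f (x, y + n, z + n * (x + m)) - f (x + m, y + n, z + n * (x + m)))
        + (f (x + m, y + n, z + n * (x + m)) - f (x + m, y, z))
        + (f (x + m, y, z) - f (x, y, z))‖ := by congr 1; abel
    _ ≤ |(n : ℝ)| * L + |(m : ℝ)| * L + |(n : ℝ)| * L + |(m : ℝ)| * L := by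
        refine (norm_add_le _ _).trans (add_le_add ?_ h1)
        refine (norm_add_le _ _).trans (add_le_add ?_ h2)
        exact (norm_add_le _ _).trans (add_le_add h4 h3)
    _ = _ := by ring

include ha hb in
theorem growth (hL : 0 ≤ L) (R : ℤ) (hR : 1 ≤ R) (x y z : ℤ) (hx : |x| ≤ 2 * R + 1)
    (hy : |y| ≤ 2 * R + 1)
    (hz : |z| ≤ 2 * R ^ 2 + 2 * R + 1) : ‖f (x, y, z) - f 0‖ ≤ 42 * R * L := by
  set k := z - x * y with hk
  set q := k / R with hq
  set r := k % R with hr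
  have hkqr : R * q + r = k := Int.mul_ediv_add_emod k R
  have hr0 : 0 ≤ r := Int.emod_nonneg k (by omega)
  have hr1 : r < R := Int.emod_lt_of_pos k (by omega)
  have hxy : |x * y| ≤ (2 * R + 1) * (2 * R + 1) := by
    rw [abs_mul]
    exact mul_le_mul hx hy (abs_nonneg _) (by omega)
  have hkb : |k| ≤ 14 * R ^ 2 := by
    have := abs_sub z (x * y)
    nlinarith
  have hqb : |q| ≤ 14 * R + 1 := by
    have h1 : R * |q| ≤ R * (14 * R + 1) := by
      have h2 : |R * q| ≤ |k| + |r| := by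
        have : R * q = k - r := by omega
        rw [this]
        exact abs_sub _ _
      rw [abs_mul, abs_of_pos (by omega : 0 < R), abs_of_nonneg hr0] at h2
      nlinarith
    exact le_of_mul_le_mul_left h1 (by omega)
  have s1 := stepA ha x 0 0 0
  have s2 := stepB hb y x 0 0
  have s3 := stepC ha hb R q x y (x * y)
  have s4 := stepC ha hb r 1 x y (x * y + R * q)
  have e1 : ((0 + x, 0, 0) : Z3) = (x, 0, 0) := by simp
  have e2 : ((x, 0 + y, 0 + y * x) : Z3) = (x, y, x * y) := by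
    ext
    · rfl
    · show 0 + y = y; ring
    · show 0 + y * x = x * y; ring
  have e4 : ((x, y, x * y + R * q + r * 1) : Z3) = (x, y, z) := by
    ext
    · rfl
    · rfl
    · show x * y + R * q + r * 1 = z
      omega
  rw [e1] at s1
  rw [e2] at s2
  rw [e4] at s4
  have c1 : |(x : ℝ)| ≤ 2 * R + 1 := by exact_mod_cast hx
  have c2 : |(y : ℝ)| ≤ 2 * R + 1 := by exact_mod_cast hy
  have c3 : |(q : ℝ)| ≤ 14 * R + 1 := by exact_mod_cast hqb
  have cR : (1 : ℝ) ≤ R := by exact_mod_cast hR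
  have c4 : |(r : ℝ)| ≤ R := by
    rw [abs_of_nonneg (by exact_mod_cast hr0)]
    exact_mod_cast hr1.le
  have c5 : |(R : ℝ)| = R := abs_of_pos (by linarith)
  have c6 : |((1 : ℤ) : ℝ)| = 1 := by simp
  rw [c5] at s3
  rw [c6] at s4
  have h0 : f 0 = f (0, 0, 0) := rfl
  calc ‖f (x, y, z) - f 0‖ = ‖(f (x, y, z) - f (x, y, x * y + R * q))
        + (f (x, y, x * y + R * q) - f (x, y, x * y)) + (f (x, y, x * y) - f (x, 0, 0))
        + (f (x, 0, 0) - f (0, 0, 0))‖ := by rw [h0]; congr 1; abel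
    _ ≤ 2 * (|(r : ℝ)| + 1) * L + 2 * (R + |(q : ℝ)|) * L + |(y : ℝ)| * L + |(x : ℝ)| * L := by
        refine (norm_add_le _ _).trans (add_le_add ?_ s1)
        refine (norm_add_le _ _).trans (add_le_add ?_ s2)
        exact (norm_add_le _ _).trans (add_le_add s4 s3)
    _ ≤ 2 * (R + 1) * L + 2 * (R + (14 * R + 1)) * L + (2 * R + 1) * L + (2 * R + 1) * L := by
        gcongr
    _ ≤ 42 * R * L := by nlinarith

end growth

/-- size of a point -/
noncomputable def Nn (R : ℝ) (p : Z3) : ℝ := |(p.1 : ℝ)| + |(p.2.1 : ℝ)| + |(p.2.2 : ℝ)| / R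

/-- cutoff function -/
noncomputable def chi (R : ℝ) (p : Z3) : ℝ := min 1 (max 0 (2 - Nn R p / R))

theorem chi_nonneg (R : ℝ) (p : Z3) : 0 ≤ chi R p := le_min zero_le_one (le_max_left _ _)

theorem chi_le_one (R : ℝ) (p : Z3) : chi R p ≤ 1 := min_le_left _ _

theorem chi_lip {R : ℝ} (hR : 0 < R) (p p' : Z3) : |chi R p - chi R p'| ≤
    |Nn R p - Nn R p'| / R := by
  unfold chi
  refine (abs_min_sub_min_le_max _ _ _ _).trans ?_
  rw [sub_self, abs_zero]
  apply max_le (by positivity)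
  refine (abs_max_sub_max_le_max _ _ _ _).trans ?_
  rw [sub_self, abs_zero]
  apply max_le (by positivity)
  have : 2 - Nn R p / R - (2 - Nn R p' / R) = -((Nn R p - Nn R p') / R) := by ring
  rw [this, abs_neg, abs_div, abs_of_pos hR]

theorem chi_eq_one {R : ℝ} (hR : 0 < R) {p : Z3} (h : Nn R p ≤ R) : chi R p = 1 := by
  unfold chi
  have h1 : Nn R p / R ≤ 1 := by rw [div_le_one hR]; exact h
  rw [max_eq_right (by linarith), min_eq_left (by linarith)]

theorem Nn_lt_of_chi {R : ℝ} (hR : 0 < R) {p : Z3} (h : chi R p ≠ 0) : Nn R p < 2 * R := by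
  by_contra h1
  push Not at h1
  apply h
  unfold chi
  have h2 : 2 ≤ Nn R p / R := by rw [le_div_iff₀ hR]; exact h1
  rw [max_eq_left (by linarith), min_eq_right zero_le_one]

theorem bounds_of_Nn {R : ℤ} (hR : 1 ≤ R) {p : Z3} (h : Nn R p < 2 * R) :
    |p.1| < 2 * R ∧ |p.2.1| < 2 * R ∧ |p.2.2| < 2 * R ^ 2 := by
  have hR' : (1 : ℝ) ≤ R := by exact_mod_cast hR
  unfold Nn at h
  have h1 := abs_nonneg (p.1 : ℝ)
  have h2 := abs_nonneg (p.2.1 : ℝ)
  have h3 : 0 ≤ |(p.2.2 : ℝ)| / R := by positivity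
  refine ⟨?_, ?_, ?_⟩
  · have : |(p.1 : ℝ)| < 2 * R := by linarith
    exact_mod_cast this
  · have : |(p.2.1 : ℝ)| < 2 * R := by linarith
    exact_mod_cast this
  · have : |(p.2.2 : ℝ)| / R < 2 * R := by linarith
    rw [div_lt_iff₀ (by linarith)] at this
    have h4 : |(p.2.2 : ℝ)| < 2 * R ^ 2 := by nlinarith
    exact_mod_cast h4

/-- The vertical versus horizontal inequality. -/
theorem heis {N : ℕ} (f : Z3 → EuclideanSpace ℝ (Fin N)) {L : ℝ} (hL : 0 ≤ L)
    (ha : ∀ p, ‖f (siga p) - f p‖ ≤ L) (hb : ∀ p, ‖f (sigb p) - f p‖ ≤ L) (J : ℕ) (l : ℕ → ℝ)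
    (hl : ∀ j < J, ∀ p, l j ≤ ‖f (sigc (2 ^ j) p) - f p‖ ^ 2) :
    ∑ j ∈ range J, (1 / 2 : ℝ) ^ j * l j ≤ 40000000000 * L ^ 2 := by
  set S : ℤ := 2 ^ J with hS
  have hS1 : 1 ≤ S := by
    rw [hS]
    exact one_le_pow₀ (by norm_num)
  set R : ℤ := 4 * S with hR
  have hR1 : 1 ≤ R := by omega
  have hRr : (1 : ℝ) ≤ R := by exact_mod_cast hR1
  have hR0 : (0 : ℝ) < R := by linarith
  have hSr : (1 : ℝ) ≤ S := by exact_mod_cast hS1
  have hRS : (R : ℝ) = 4 * S := by rw [hR]; push_cast; ring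
  set F : Z3 → EuclideanSpace ℝ (Fin N) := fun p => chi R p • (f p - f 0) with hF
  have hchi : ∀ p, F p ≠ 0 → |p.1| < 2 * R ∧ |p.2.1| < 2 * R ∧ |p.2.2| < 2 * R ^ 2 := by
    intro p hp
    apply bounds_of_Nn hR1
    apply Nn_lt_of_chi hR0
    intro h0
    apply hp
    simp only [hF, h0, zero_smul]
  -- the boxes
  set T : Finset Z3 := Icc (-S) S ×ˢ (Icc (-S) S ×ˢ Icc (-(4 * S ^ 2)) (4 * S ^ 2)) with hT
  set T' : Finset Z3 := Icc (-(2 * R + 1)) (2 * R + 1) ×ˢ (Icc (-(2 * R + 1)) (2 * R + 1) ×ˢ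
    Icc (-(2 * R ^ 2 + 2 * R + 1)) (2 * R ^ 2 + 2 * R + 1)) with hT'
  have memT : ∀ p : Z3, p ∈ T ↔ |p.1| ≤ S ∧ |p.2.1| ≤ S ∧ |p.2.2| ≤ 4 * S ^ 2 := by
    intro p
    rw [hT, mem_product, mem_product, mem_Icc, mem_Icc, mem_Icc, abs_le, abs_le, abs_le]
  have memT' : ∀ p : Z3, p ∈ T' ↔ |p.1| ≤ 2 * R + 1 ∧ |p.2.1| ≤ 2 * R + 1 ∧
      |p.2.2| ≤ 2 * R ^ 2 + 2 * R + 1 := by
    intro p
    rw [hT', mem_product, mem_product, mem_Icc, mem_Icc, mem_Icc, abs_le, abs_le, abs_le]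
  have hsub : ∀ p q : Z3, F q - F p ≠ 0 → F q ≠ 0 ∨ F p ≠ 0 := by
    intro p q h
    by_contra hcon
    push Not at hcon
    apply h
    rw [hcon.1, hcon.2, sub_zero]
  have hmain := supp_ineq F (2 * R ^ 2) (fun p hp => by
      obtain ⟨h1, h2, h3⟩ := hchi p hp
      refine ⟨?_, ?_, h3.le⟩ <;> nlinarith) J T T'
    (fun p hp => by
      obtain ⟨h1, h2, h3⟩ := (memT p).mp hp
      rw [hR]
      refine ⟨?_, ?_, ?_⟩ <;> nlinarith)
    (fun p hp => by
      rw [memT']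
      rcases hsub _ _ hp with h | h
      · obtain ⟨h1, h2, h3⟩ := hchi _ h
        simp only [siga] at h1 h2 h3
        refine ⟨?_, by omega, by omega⟩
        have := abs_sub (p.1 + 1) 1
        rw [abs_one, add_sub_cancel_right] at this
        omega
      · obtain ⟨h1, h2, h3⟩ := hchi _ h
        exact ⟨by omega, by omega, by omega⟩)
    (fun p hp => by
      rw [memT']
      rcases hsub _ _ hp with h | h
      · obtain ⟨h1, h2, h3⟩ := hchi _ h
        simp only [sigb] at h1 h2 h3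
        refine ⟨by omega, ?_, ?_⟩
        · have := abs_sub (p.2.1 + 1) 1
          rw [abs_one, add_sub_cancel_right] at this
          omega
        · have := abs_sub (p.2.2 + p.1) p.1
          rw [add_sub_cancel_right] at this
          omega
      · obtain ⟨h1, h2, h3⟩ := hchi _ h
        exact ⟨by omega, by omega, by omega⟩)
  -- pointwise upper bound
  have hpt : ∀ (σ : Z3 → Z3), (∀ p, ‖f (σ p) - f p‖ ≤ L) →
      (∀ p ∈ T', |Nn R (σ p) - Nn R p| ≤ 4) → ∀ p ∈ T', ‖F (σ p) - F p‖ ^ 2 ≤ (169 * L) ^ 2 := by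
    intro σ h1 h2 p hp
    apply pow_le_pow_left₀ (norm_nonneg _)
    have e1 : F (σ p) - F p = chi R (σ p) • (f (σ p) - f p) +
        (chi R (σ p) - chi R p) • (f p - f 0) := by
      simp only [hF, smul_sub, sub_smul]
      abel
    rw [e1]
    obtain ⟨b1, b2, b3⟩ := (memT' p).mp hp
    have hg : ‖f p - f 0‖ ≤ 42 * R * L := growth ha hb hL R hR1 p.1 p.2.1 p.2.2 b1 b2 b3
    have hc := chi_lip hR0 (σ p) p
    have hc' : |chi R (σ p) - chi R p| ≤ 4 / R :=
      hc.trans (div_le_div_of_nonneg_right (h2 p hp) hR0.le)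
    refine (norm_add_le _ _).trans ?_
    rw [norm_smul, norm_smul, Real.norm_eq_abs, Real.norm_eq_abs, abs_of_nonneg (chi_nonneg _ _)]
    calc chi R (σ p) * ‖f (σ p) - f p‖ + |chi R (σ p) - chi R p| * ‖f p - f 0‖
        ≤ 1 * L + 4 / R * (42 * R * L) :=
          add_le_add (mul_le_mul (chi_le_one _ _) (h1 p) (norm_nonneg _) zero_le_one)
            (mul_le_mul hc' hg (norm_nonneg _) (by positivity))
      _ = 169 * L := by field_simp; ring
  have hNa : ∀ p ∈ T', |Nn R (siga p) - Nn R p| ≤ 4 := by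
    intro p _
    have e1 : Nn R (siga p) - Nn R p = |(p.1 : ℝ) + 1| - |(p.1 : ℝ)| := by
      simp only [Nn, siga]
      push_cast
      ring
    rw [e1]
    refine (abs_abs_sub_abs_le_abs_sub _ _).trans ?_
    rw [add_sub_cancel_left, abs_one]
    norm_num
  have hNb : ∀ p ∈ T', |Nn R (sigb p) - Nn R p| ≤ 4 := by
    intro p hp
    obtain ⟨b1, b2, b3⟩ := (memT' p).mp hp
    have e1 : Nn R (sigb p) - Nn R p = (|(p.2.1 : ℝ) + 1| - |(p.2.1 : ℝ)|)
        + (|(p.2.2 : ℝ) + p.1| - |(p.2.2 : ℝ)|) / R := by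
      simp only [Nn, sigb]
      push_cast
      ring
    rw [e1]
    refine (abs_add_le _ _).trans ?_
    have h1 : |(|(p.2.1 : ℝ) + 1| - |(p.2.1 : ℝ)|)| ≤ 1 := by
      refine (abs_abs_sub_abs_le_abs_sub _ _).trans ?_
      rw [add_sub_cancel_left, abs_one]
    have h2 : |(|(p.2.2 : ℝ) + p.1| - |(p.2.2 : ℝ)|) / R| ≤ 3 := by
      rw [abs_div, abs_of_pos hR0, div_le_iff₀ hR0]
      refine (abs_abs_sub_abs_le_abs_sub _ _).trans ?_
      rw [add_sub_cancel_left]
      have : |(p.1 : ℝ)| ≤ 2 * R + 1 := by exact_mod_cast b1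
      linarith
    linarith
  have hU : ∀ (σ : Z3 → Z3), (∀ p, ‖f (σ p) - f p‖ ≤ L) →
      (∀ p ∈ T', |Nn R (σ p) - Nn R p| ≤ 4) →
      ∑ p ∈ T', ‖F (σ p) - F p‖ ^ 2 ≤ 29963 * (S : ℝ) ^ 4 * (169 * L) ^ 2 := by
    intro σ h1 h2
    refine (Finset.sum_le_sum (hpt σ h1 h2)).trans ?_
    rw [Finset.sum_const, nsmul_eq_mul]
    apply mul_le_mul_of_nonneg_right _ (sq_nonneg _)
    have hcard : (T'.card : ℝ) = (4 * R + 3) * ((4 * R + 3) * (4 * R ^ 2 + 4 * R + 3)) := by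
      rw [hT', card_product, card_product, Int.card_Icc, Int.card_Icc]
      have h3 : ((2 * R + 1 + 1 - -(2 * R + 1)).toNat : ℤ) = 4 * R + 3 := by
        rw [Int.toNat_of_nonneg (by omega)]; ring
      have h4 : ((2 * R ^ 2 + 2 * R + 1 + 1 - -(2 * R ^ 2 + 2 * R + 1)).toNat : ℤ) =
          4 * R ^ 2 + 4 * R + 3 := by
        rw [Int.toNat_of_nonneg (by nlinarith)]; ring
      have h3' : ((2 * R + 1 + 1 - -(2 * R + 1)).toNat : ℝ) = 4 * R + 3 := by
        exact_mod_cast h3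
      have h4' : ((2 * R ^ 2 + 2 * R + 1 + 1 - -(2 * R ^ 2 + 2 * R + 1)).toNat : ℝ) =
          4 * R ^ 2 + 4 * R + 3 := by exact_mod_cast h4
      rw [Nat.cast_mul, Nat.cast_mul, h3', h4']
    rw [hcard, hRS]
    have g1 : 4 * (4 * (S : ℝ)) + 3 ≤ 19 * S := by linarith
    have g2 : 4 * (4 * (S : ℝ)) ^ 2 + 4 * (4 * S) + 3 ≤ 83 * S ^ 2 := by nlinarith
    calc (4 * (4 * (S : ℝ)) + 3) * ((4 * (4 * S) + 3) * (4 * (4 * S) ^ 2 + 4 * (4 * S) + 3))
        ≤ (19 * S) * ((19 * S) * (83 * S ^ 2)) := by gcongr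
      _ = 29963 * (S : ℝ) ^ 4 := by ring
  -- pointwise lower bound
  have hLow : ∀ j ∈ range J, 32 * (S : ℝ) ^ 4 * l j ≤ ∑ p ∈ T, ‖F (sigc (2 ^ j) p) - F p‖ ^ 2 := by
    intro j hj
    have hjJ := mem_range.mp hj
    by_cases hlj : l j ≤ 0
    · have h1 : 32 * (S : ℝ) ^ 4 * l j ≤ 0 := mul_nonpos_of_nonneg_of_nonpos (by positivity) hlj
      exact h1.trans (Finset.sum_nonneg fun _ _ => by positivity)
    push Not at hlj
    have hterm : ∀ p ∈ T, l j ≤ ‖F (sigc (2 ^ j) p) - F p‖ ^ 2 := by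
      intro p hp
      obtain ⟨b1, b2, b3⟩ := (memT p).mp hp
      have c1 : |(p.1 : ℝ)| ≤ S := by exact_mod_cast b1
      have c2 : |(p.2.1 : ℝ)| ≤ S := by exact_mod_cast b2
      have c3 : |(p.2.2 : ℝ)| ≤ 4 * S ^ 2 := by exact_mod_cast b3
      have h2j : (2 : ℝ) ^ j ≤ 4 * S ^ 2 := by
        have h3 : (2 : ℝ) ^ j ≤ S := by
          rw [hS]
          push_cast
          exact pow_le_pow_right₀ (by norm_num) hjJ.le
        nlinarith
      have n1 : Nn R p ≤ R := by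
        unfold Nn
        have : |(p.2.2 : ℝ)| / R ≤ S := by
          rw [div_le_iff₀ hR0, hRS]
          nlinarith
        rw [hRS] at this ⊢
        linarith
      have n2 : Nn R (sigc (2 ^ j) p) ≤ R := by
        unfold Nn sigc
        have : |((p.2.2 + 2 ^ j : ℤ) : ℝ)| / R ≤ 2 * S := by
          rw [div_le_iff₀ hR0, hRS]
          push_cast
          have h4 := abs_add_le (p.2.2 : ℝ) (2 ^ j)
          rw [abs_of_pos (by positivity : (0 : ℝ) < 2 ^ j)] at h4
          nlinarith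
        show |(p.1 : ℝ)| + |(p.2.1 : ℝ)| + |((p.2.2 + 2 ^ j : ℤ) : ℝ)| / R ≤ R
        rw [hRS] at this ⊢
        linarith
      have e1 : F (sigc (2 ^ j) p) - F p = f (sigc (2 ^ j) p) - f p := by
        simp only [hF, chi_eq_one hR0 n1, chi_eq_one hR0 n2, one_smul]
        abel
      rw [e1]
      exact hl j hjJ p
    have hsum := Finset.sum_le_sum hterm
    rw [Finset.sum_const, nsmul_eq_mul] at hsum
    refine le_trans ?_ hsum
    apply mul_le_mul_of_nonneg_right _ hlj.le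
    have hcard : (T.card : ℝ) = (2 * S + 1) * ((2 * S + 1) * (8 * S ^ 2 + 1)) := by
      rw [hT, card_product, card_product, Int.card_Icc, Int.card_Icc]
      have h3 : ((S + 1 - -S).toNat : ℤ) = 2 * S + 1 := by
        rw [Int.toNat_of_nonneg (by omega)]; ring
      have h4 : ((4 * S ^ 2 + 1 - -(4 * S ^ 2)).toNat : ℤ) = 8 * S ^ 2 + 1 := by
        rw [Int.toNat_of_nonneg (by nlinarith)]; ring
      have h3' : ((S + 1 - -S).toNat : ℝ) = 2 * S + 1 := by exact_mod_cast h3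
      have h4' : ((4 * S ^ 2 + 1 - -(4 * S ^ 2)).toNat : ℝ) = 8 * S ^ 2 + 1 := by
        exact_mod_cast h4
      rw [Nat.cast_mul, Nat.cast_mul, h3', h4']
    rw [hcard]
    have g1 : 2 * (S : ℝ) ≤ 2 * S + 1 := by linarith
    have g2 : 8 * (S : ℝ) ^ 2 ≤ 8 * S ^ 2 + 1 := by linarith
    calc 32 * (S : ℝ) ^ 4 = (2 * S) * ((2 * S) * (8 * S ^ 2)) := by ring
      _ ≤ _ := by gcongr
  have hfin : 32 * (S : ℝ) ^ 4 * ∑ j ∈ range J, (1 / 2 : ℝ) ^ j * l j ≤
      576 * (29963 * (S : ℝ) ^ 4 * (169 * L) ^ 2 + 29963 * (S : ℝ) ^ 4 * (169 * L) ^ 2) := by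
    calc 32 * (S : ℝ) ^ 4 * ∑ j ∈ range J, (1 / 2 : ℝ) ^ j * l j
        = ∑ j ∈ range J, (1 / 2 : ℝ) ^ j * (32 * (S : ℝ) ^ 4 * l j) := by
          rw [mul_sum]
          refine Finset.sum_congr rfl fun j _ => ?_
          ring
      _ ≤ ∑ j ∈ range J, (1 / 2 : ℝ) ^ j * ∑ p ∈ T, ‖F (sigc (2 ^ j) p) - F p‖ ^ 2 :=
          Finset.sum_le_sum fun j hj => mul_le_mul_of_nonneg_left (hLow j hj) (by positivity)
      _ ≤ _ := hmain
      _ ≤ _ := by
          have h1 := hU siga ha hNa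
          have h2 := hU sigb hb hNb
          linarith
  have hS4 : 0 < (S : ℝ) ^ 4 := by positivity
  have h9 : (S : ℝ) ^ 4 * (32 * ∑ j ∈ range J, (1 / 2 : ℝ) ^ j * l j) ≤
      (S : ℝ) ^ 4 * (32 * (40000000000 * L ^ 2)) := by nlinarith [sq_nonneg L]
  have h10 := le_of_mul_le_mul_left h9 hS4
  linarith

end Pool.Agent.TH597.BL
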