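import Pool.Agent.TH597.BL.Comp

set_option autoImplicit false

/-! Distances between the points of the Heisenberg orbit of the origin. -/

namespace Pool.Agent.TH597.BL

open Pool.Agent.W555.RG
open scoped ContDiff Topology
open Set

/-- points of the orbit -/
def pt (x y z : ℝ) : V := Pi.single 10 x + Pi.single 11 y + Pi.single 12 z

theorem pt_10 (x y z : ℝ) : pt x y z 10 = x := by simp [pt]
theorem pt_11 (x y z : ℝ) : pt x y z 11 = y := by simp [pt]
theorem pt_12 (x y z : ℝ) : pt x y z 12 = z := by simp [pt]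

theorem dS_pt (u : V) (x y z : ℝ) : dS u (pt x y z) = 0 := by
  unfold pt
  rw [dS_add_right, dS_add_right, dS_single_right' u 10 (by decide),
    dS_single_right' u 11 (by decide), dS_single_right' u 12 (by decide)]
  ring
where
  dS_single_right' (u : V) (i : Fin 13) (hi : ¬ i.val < 10) {c : ℝ} :
      dS u (Pi.single i c) = 0 := by
    unfold dS
    refine Finset.sum_eq_zero fun j _ => ?_
    split_ifs with h
    · rw [Pi.single_eq_of_ne (by rintro rfl; exact hi h), mul_zero]
    · rfl

theorem pt_add (x y z x' y' z' : ℝ) : pt x y z + pt x' y' z' = pt (x + x') (y + y') (z + z') := by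
  unfold pt
  rw [Pi.single_add, Pi.single_add, Pi.single_add]
  abel

theorem smul_pt (t x y z : ℝ) : t • pt x y z = pt (t * x) (t * y) (t * z) := by
  unfold pt
  rw [smul_add, smul_add]
  simp only [← Pi.single_smul, smul_eq_mul]

theorem line_deriv (p v : V) (t : ℝ) : deriv (fun s : ℝ => p + s • v) t = v := by
  have : HasDerivAt (fun s : ℝ => p + s • v) ((1 : ℝ) • v) t :=
    ((hasDerivAt_id t).smul_const v).const_add p
  rw [this.deriv, one_smul]

/-- Displacements in the directions of the left-invariant horizontal fields. -/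
theorem dist_horizontal {a e : ℝ} (he : 0 < e) (x y z x' y' : ℝ) (h1 : x' ^ 2 + y' ^ 2 = 1)
    (h2 : x' * y' = 0) :
    (G a e he.ne').dist (pt x y z) (pt (x + x') (y + y') (z + x * y')) ≤ 1 := by
  have hγ : ContDiff ℝ 1 (fun t : ℝ => pt x y z + t • pt x' y' (x * y')) := by fun_prop
  have h := dist_le_length (G a e he.ne') hγ
  have hl : (G a e he.ne').length (fun t : ℝ => pt x y z + t • pt x' y' (x * y')) = 1 := by
    rw [length_eq]
    have hs : ∀ t : ℝ, sp a e (fun t : ℝ => pt x y z + t • pt x' y' (x * y')) t = 1 := by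
      intro t
      unfold sp
      rw [line_deriv]
      have hg : gf a e (pt x y z + t • pt x' y' (x * y')) (pt x' y' (x * y'))
          (pt x' y' (x * y')) = 1 := by
        unfold gf w th
        rw [smul_pt, pt_add]
        rw [dS_pt, dS_pt, dS_pt, pt_10, pt_11, pt_12, pt_10]
        have e1 : x * y' - (x + t * x') * y' = 0 := by
          have : t * x' * y' = t * (x' * y') := by ring
          rw [add_mul, this, h2]; ring
        rw [e1]
        unfold H
        rw [add_zero, Real.one_rpow]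
        nlinarith
      rw [hg, Real.sqrt_one]
    simp only [hs]
    simp
  rw [hl] at h
  convert h using 2
  · simp
  · rw [one_smul, pt_add]

theorem dist_a {a e : ℝ} (he : 0 < e) (x y z : ℝ) :
    (G a e he.ne').dist (pt x y z) (pt (x + 1) y z) ≤ 1 := by
  have := dist_horizontal (a := a) he x y z 1 0 (by norm_num) (by norm_num)
  simpa using this

theorem dist_b {a e : ℝ} (he : 0 < e) (x y z : ℝ) :
    (G a e he.ne').dist (pt x y z) (pt x (y + 1) (z + x)) ≤ 1 := by
  have := dist_horizontal (a := a) he x y z 0 1 (by norm_num) (by norm_num)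
  simpa using this

/-- Lower bound of the vertical displacements. -/
theorem dist_c (n : ℕ) (hn : 7 ≤ n) (e : ℝ) (he : 0 < e) (hen : e = 1 / n) (x y z k : ℝ)
    (hk : 36 * (n : ℝ) < k) (hk' : k ≤ 288 * n * 2 ^ (n ^ 2)) :
    k / (144 * n) ≤ ((G (1 / (n : ℝ) ^ 2) e he.ne').dist (pt x y z) (pt x y (z + k))) ^ 2 := by
  have hn0 : (0 : ℝ) < n := by positivity
  have hn7 : (7 : ℝ) ≤ n := by exact_mod_cast hn
  set a : ℝ := 1 / (n : ℝ) ^ 2 with hadef
  have ha : 0 < a := by positivity
  have ha1 : a ≤ 1 := by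
    rw [hadef, div_le_one (by positivity)]
    nlinarith
  have hk0 : 0 < k := lt_trans (by positivity) hk
  -- every curve is long
  have key : ∀ γ : ℝ → V, ContDiff ℝ 1 γ → γ 0 = pt x y z → γ 1 = pt x y (z + k) →
      k / (144 * n) ≤ ((G a e he.ne').length γ) ^ 2 := by
    intro γ hγ h0 h1
    set l := (G a e he.ne').length γ with hl
    have hl0 : 0 ≤ l := RMetric.length_nonneg _ γ
    have hp : dS (pt x y z) (pt x y z) = 0 := dS_pt _ _ _ _
    have h1' : γ 1 = pt x y z + k • (Pi.single 12 1 : V) := by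
      rw [h1]
      have : (Pi.single 12 1 : V) = pt 0 0 1 := by simp [pt]
      rw [this, smul_pt, pt_add]
      simp
    have hv := vertical ha.le he hγ hp h0 h1'
    rw [← hl] at hv
    have hWpos : 0 < 1 + 2 * l := by linarith
    have hWW : (1 + 2 * l) ^ a * l * (1 + 2 * l) ^ a = (1 + 2 * l) ^ (2 * a) * l := by
      rw [two_mul a, Real.rpow_add hWpos]
      ring
    rw [hWW] at hv
    have he' : (1 + 2 * l) ^ (1 + 2 * a) / e = n * (1 + 2 * l) ^ (1 + 2 * a) := by
      rw [hen]
      field_simp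
    rw [he'] at hv
    by_cases hl1 : l < 1
    · exfalso
      have hW3 : 1 + 2 * l ≤ 3 := by linarith
      have hW1 : 1 ≤ 1 + 2 * l := by linarith
      have b1 : (1 + 2 * l) ^ (1 + 2 * a) ≤ 27 := by
        calc (1 + 2 * l) ^ (1 + 2 * a) ≤ (1 + 2 * l) ^ (3 : ℝ) :=
              Real.rpow_le_rpow_of_exponent_le hW1 (by linarith)
          _ ≤ 3 ^ (3 : ℝ) := Real.rpow_le_rpow hWpos.le hW3 (by norm_num)
          _ = 27 := by norm_num
      have b2 : (1 + 2 * l) ^ (2 * a) ≤ 9 := by
        calc (1 + 2 * l) ^ (2 * a) ≤ (1 + 2 * l) ^ (2 : ℝ) :=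
              Real.rpow_le_rpow_of_exponent_le hW1 (by linarith)
          _ ≤ 3 ^ (2 : ℝ) := Real.rpow_le_rpow hWpos.le hW3 (by norm_num)
          _ = 9 := by norm_num
      have b3 : (n * (1 + 2 * l) ^ (1 + 2 * a) + (1 + 2 * l) ^ (2 * a) * l) * l ≤
          (n * 27 + 9 * 1) * 1 := by
        gcongr
      nlinarith
    · push Not at hl1
      have hlp : 0 < l := by linarith
      have hW3 : 1 + 2 * l ≤ 3 * l := by linarith
      have b0 : (3 * l) ^ (2 * a) ≤ 9 * l ^ (2 * a) := by
        rw [Real.mul_rpow (by norm_num) hl0]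
        apply mul_le_mul_of_nonneg_right _ (by positivity)
        calc (3 : ℝ) ^ (2 * a) ≤ 3 ^ (2 : ℝ) :=
              Real.rpow_le_rpow_of_exponent_le (by norm_num) (by linarith)
          _ = 9 := by norm_num
      have b1 : (1 + 2 * l) ^ (1 + 2 * a) ≤ 27 * l * l ^ (2 * a) := by
        calc (1 + 2 * l) ^ (1 + 2 * a) ≤ (3 * l) ^ (1 + 2 * a) :=
              Real.rpow_le_rpow hWpos.le hW3 (by positivity)
          _ = 3 * l * (3 * l) ^ (2 * a) := by
              rw [Real.rpow_add (by positivity), Real.rpow_one]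
          _ ≤ 3 * l * (9 * l ^ (2 * a)) := by gcongr
          _ = _ := by ring
      have b2 : (1 + 2 * l) ^ (2 * a) ≤ 9 * l ^ (2 * a) :=
        (Real.rpow_le_rpow hWpos.le hW3 (by positivity)).trans b0
      have b3 : k ≤ 36 * n * l ^ 2 * l ^ (2 * a) := by
        calc k ≤ (n * (1 + 2 * l) ^ (1 + 2 * a) + (1 + 2 * l) ^ (2 * a) * l) * l := hv
          _ ≤ (n * (27 * l * l ^ (2 * a)) + 9 * l ^ (2 * a) * l) * l := by gcongr
          _ = (27 * n + 9) * l ^ 2 * l ^ (2 * a) := by ring
          _ ≤ 36 * n * l ^ 2 * l ^ (2 * a) := by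
              gcongr
              linarith
      by_cases hbig : l ^ 2 ≤ 2 ^ (n ^ 2 + 1)
      · have b4 : l ^ (2 * a) ≤ 4 := by
          have h5 : l ^ (2 * a) = (l ^ 2) ^ a := by
            rw [Real.rpow_mul hl0, Real.rpow_two]
          rw [h5]
          have h6 : (l ^ 2) ^ a ≤ ((2 : ℝ) ^ (n ^ 2 + 1)) ^ a :=
            Real.rpow_le_rpow (by positivity) hbig ha.le
          refine h6.trans ?_
          rw [← Real.rpow_natCast (2 : ℝ) (n ^ 2 + 1), ← Real.rpow_mul (by norm_num)]
          have h7 : ((n ^ 2 + 1 : ℕ) : ℝ) * a ≤ 2 := by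
            rw [hadef]
            push_cast
            rw [mul_one_div, div_le_iff₀ (by positivity)]
            nlinarith
          calc (2 : ℝ) ^ (((n ^ 2 + 1 : ℕ) : ℝ) * a) ≤ 2 ^ (2 : ℝ) :=
                Real.rpow_le_rpow_of_exponent_le (by norm_num) h7
            _ = 4 := by norm_num
        rw [div_le_iff₀ (by positivity)]
        calc k ≤ 36 * n * l ^ 2 * l ^ (2 * a) := b3
          _ ≤ 36 * n * l ^ 2 * 4 := by gcongr
          _ = _ := by ring
      · push Not at hbig
        rw [div_le_iff₀ (by positivity)]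
        calc k ≤ 288 * n * 2 ^ (n ^ 2) := hk'
          _ = 2 ^ (n ^ 2 + 1) * (144 * n) := by ring
          _ ≤ _ := by gcongr
  have hle : Real.sqrt (k / (144 * n)) ≤ (G a e he.ne').dist (pt x y z) (pt x y (z + k)) := by
    apply le_csInf
    · exact ⟨_, fun s => pt x y z + s • (pt x y (z + k) - pt x y z), by fun_prop, by simp,
        by simp, rfl⟩
    · rintro L ⟨γ, hγ, h0, h1, rfl⟩
      have h := key γ hγ h0 h1
      calc Real.sqrt (k / (144 * n)) ≤ Real.sqrt (((G a e he.ne').length γ) ^ 2) :=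
            Real.sqrt_le_sqrt h
        _ = _ := Real.sqrt_sq (RMetric.length_nonneg _ γ)
  calc k / (144 * n) = (Real.sqrt (k / (144 * n))) ^ 2 := (Real.sq_sqrt (by positivity)).symm
    _ ≤ _ := pow_le_pow_left₀ (Real.sqrt_nonneg _) hle 2

end Pool.Agent.TH597.BL
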