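import Pool.Agent.TH597.BL.Ric2
import Pool.Agent.TH597.BL.Lat
import Pool.Agent.TH597.BL.Heis3

set_option autoImplicit false

/-! The counterexample. -/

namespace Pool.Agent.TH597.BL

open Pool.Agent.W555.RG
open scoped ContDiff Topology
open Finset

/-- The Riemannian manifold `(ℝⁿ, g)`, with its Riemannian distance, admits a bi-Lipschitz
embedding into the Euclidean space `ℝᴺ` with distortion at most `D`: a map `f` such that
`s d(x, y) ≤ |f(x) - f(y)| ≤ s D d(x, y)` for some scale `s > 0`. -/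
def EmbedsWithDistortion {n : ℕ} (g : RMetric (Fin n → ℝ)) (N : ℕ) (D : ℝ) : Prop :=
  ∃ (f : (Fin n → ℝ) → EuclideanSpace ℝ (Fin N)) (s : ℝ), 0 < s ∧ ∀ x y : Fin n → ℝ,
    s * g.dist x y ≤ dist (f x) (f y) ∧ dist (f x) (f y) ≤ s * D * g.dist x y

theorem no_embedding (n : ℕ) (hn : 7 ≤ n) (he : (1 / (n : ℝ)) ≠ 0) (N : ℕ) (D : ℝ)
    (h : EmbedsWithDistortion (G (1 / (n : ℝ) ^ 2) (1 / (n : ℝ)) he) N D) :
    (n : ℝ) ≤ 144 * 40000000000 * D ^ 2 := by
  obtain ⟨f, s, hs, hf⟩ := h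
  have hn0 : (0 : ℝ) < n := by positivity
  have he' : (0 : ℝ) < 1 / n := by positivity
  set F : Z3 → EuclideanSpace ℝ (Fin N) := fun p => f (pt p.1 p.2.1 p.2.2) with hF
  have hL : 0 ≤ s * |D| := by positivity
  have up : ∀ x y : V, (G (1 / (n : ℝ) ^ 2) (1 / (n : ℝ)) he).dist x y ≤ 1 →
      ‖f y - f x‖ ≤ s * |D| := by
    intro x y hxy
    rw [← dist_eq_norm, dist_comm]
    refine (hf x y).2.trans ?_
    have h0 := dist_nonneg' (G (1 / (n : ℝ) ^ 2) (1 / (n : ℝ)) he) x y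
    have h1 : s * D ≤ s * |D| := mul_le_mul_of_nonneg_left (le_abs_self D) hs.le
    calc s * D * _ ≤ s * |D| * _ := mul_le_mul_of_nonneg_right h1 h0
      _ ≤ s * |D| * 1 := mul_le_mul_of_nonneg_left hxy hL
      _ = _ := mul_one _
  have ha : ∀ p, ‖F (siga p) - F p‖ ≤ s * |D| := by
    intro p
    apply up
    have := dist_a (a := 1 / (n : ℝ) ^ 2) he' p.1 p.2.1 p.2.2
    simpa [siga] using this
  have hb : ∀ p, ‖F (sigb p) - F p‖ ≤ s * |D| := by
    intro p
    apply up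
    have := dist_b (a := 1 / (n : ℝ) ^ 2) he' p.1 p.2.1 p.2.2
    simpa [sigb] using this
  -- the first scale
  obtain ⟨j0, hj0, hj0'⟩ : ∃ j0 : ℕ, 36 * n < 2 ^ j0 ∧ 2 ^ j0 ≤ 72 * n := by
    have hex : ∃ j : ℕ, 36 * n < 2 ^ j := ⟨36 * n, Nat.lt_two_pow_self⟩
    classical
    refine ⟨Nat.find hex, Nat.find_spec hex, ?_⟩
    have hne : Nat.find hex ≠ 0 := by
      intro h0
      have := Nat.find_spec hex
      rw [h0] at this
      omega
    have h1 := Nat.find_min hex (Nat.sub_one_lt hne)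
    push Not at h1
    obtain ⟨k, hk⟩ := Nat.exists_eq_succ_of_ne_zero hne
    rw [hk] at h1 ⊢
    rw [Nat.succ_sub_one] at h1
    rw [Nat.succ_eq_add_one, pow_succ]
    omega
  set J := j0 + n ^ 2 with hJ
  have hlow : ∀ j < J, ∀ p, (if j0 ≤ j then s ^ 2 * (2 ^ j / (144 * n)) else 0) ≤
      ‖F (sigc (2 ^ j) p) - F p‖ ^ 2 := by
    intro j hj p
    split_ifs with hjj
    · have hk1 : 36 * (n : ℝ) < 2 ^ j := by
        have h1 : 36 * (n : ℝ) < 2 ^ j0 := by exact_mod_cast hj0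
        exact h1.trans_le (pow_le_pow_right₀ (by norm_num) hjj)
      have hk2 : (2 : ℝ) ^ j ≤ 288 * n * 2 ^ (n ^ 2) := by
        have h1 : (2 : ℝ) ^ j0 ≤ 72 * n := by exact_mod_cast hj0'
        calc (2 : ℝ) ^ j ≤ 2 ^ (j0 + n ^ 2) := pow_le_pow_right₀ (by norm_num) hj.le
          _ = 2 ^ j0 * 2 ^ (n ^ 2) := pow_add _ _ _
          _ ≤ 72 * n * 2 ^ (n ^ 2) := by gcongr
          _ ≤ 288 * n * 2 ^ (n ^ 2) := by
            apply mul_le_mul_of_nonneg_right _ (by positivity)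
            linarith
      have hd := dist_c n hn (1 / (n : ℝ)) he' rfl p.1 p.2.1 p.2.2 (2 ^ j) hk1 hk2
      have hf1 := (hf (pt p.1 p.2.1 p.2.2) (pt p.1 p.2.1 (p.2.2 + 2 ^ j))).1
      have e1 : ‖F (sigc (2 ^ j) p) - F p‖ =
          dist (f (pt p.1 p.2.1 p.2.2)) (f (pt p.1 p.2.1 (p.2.2 + 2 ^ j))) := by
        rw [dist_comm, dist_eq_norm]
        simp [hF, sigc]
      rw [e1]
      have h0 := dist_nonneg' (G (1 / (n : ℝ) ^ 2) (1 / (n : ℝ)) he) (pt p.1 p.2.1 p.2.2)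
        (pt p.1 p.2.1 (p.2.2 + 2 ^ j))
      calc s ^ 2 * (2 ^ j / (144 * n)) ≤ s ^ 2 * _ := mul_le_mul_of_nonneg_left hd (sq_nonneg s)
        _ = (s * (G (1 / (n : ℝ) ^ 2) (1 / (n : ℝ)) he).dist (pt p.1 p.2.1 p.2.2)
          (pt p.1 p.2.1 (p.2.2 + 2 ^ j))) ^ 2 := by ring
        _ ≤ _ := pow_le_pow_left₀ (by positivity) hf1 2
    · positivity
  have main := heis F hL ha hb J _ hlow
  have hsum : ∑ j ∈ range J, (1 / 2 : ℝ) ^ j * (if j0 ≤ j then s ^ 2 * (2 ^ j / (144 * n)) else 0) =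
      s ^ 2 * n / 144 := by
    rw [hJ, sum_range_add]
    have h1 : ∑ j ∈ range j0, (1 / 2 : ℝ) ^ j *
        (if j0 ≤ j then s ^ 2 * (2 ^ j / (144 * n)) else 0) = 0 := by
      apply Finset.sum_eq_zero
      intro j hj
      rw [if_neg (by have := mem_range.mp hj; omega), mul_zero]
    have h2 : ∀ i ∈ range (n ^ 2), (1 / 2 : ℝ) ^ (j0 + i) *
        (if j0 ≤ j0 + i then s ^ 2 * (2 ^ (j0 + i) / (144 * n)) else 0) =
        s ^ 2 / (144 * n) := by
      intro i _
      rw [if_pos (by omega), one_div, inv_pow]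
      have : (2 : ℝ) ^ (j0 + i) ≠ 0 := by positivity
      field_simp
    rw [h1, Finset.sum_congr rfl h2, Finset.sum_const, card_range, nsmul_eq_mul, zero_add]
    push_cast
    field_simp
  rw [hsum] at main
  have h3 : s ^ 2 * (n / 144) ≤ s ^ 2 * (40000000000 * D ^ 2) := by
    calc s ^ 2 * (n / 144) = s ^ 2 * n / 144 := by ring
      _ ≤ _ := main
      _ = _ := by rw [mul_pow, sq_abs]; ring
  have h4 := le_of_mul_le_mul_left h3 (by positivity)
  linarith

/-- For every `D` there is a complete Riemannian metric of nonnegative Ricci curvature on `ℝ¹³`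
without bi-Lipschitz embeddings into Euclidean spaces of distortion at most `D`. -/
theorem main (D : ℝ) : ∃ g : RMetric (Fin 13 → ℝ), g.IsComplete ∧ (∀ x u, 0 ≤ Ric g x u u) ∧
    ∀ N : ℕ, ¬ EmbedsWithDistortion g N D := by
  obtain ⟨m, hm⟩ := exists_nat_gt (144 * 40000000000 * D ^ 2)
  set n := m + 7 with hn
  have hn7 : 7 ≤ n := by omega
  have hn7' : (7 : ℝ) ≤ n := by exact_mod_cast hn7
  have hn0 : (0 : ℝ) < n := by positivity
  have he : (1 / (n : ℝ)) ≠ 0 := by positivity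
  refine ⟨G (1 / (n : ℝ) ^ 2) (1 / (n : ℝ)) he, complete_G (by positivity) (by positivity),
    fun x u => ?_, fun N h => ?_⟩
  · apply Ric_nonneg _ _ _ (by positivity)
    · rw [div_le_div_iff₀ (by positivity) (by norm_num)]
      nlinarith
    · rw [div_pow, one_pow, mul_one_div]
      apply div_le_div_of_nonneg_right (by norm_num) (by positivity)
  · have h1 := no_embedding n hn7 he N D h
    have h2 : (m : ℝ) ≤ n := by rw [hn]; push_cast; linarith
    linarith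

end Pool.Agent.TH597.BL
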