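import Pool.Agent.TH597.BL.Gam

set_option autoImplicit false

/-! Ricci curvature of the metric of the example. -/

namespace Pool.Agent.TH597.BL

open Pool.Agent.W555.RG
open scoped ContDiff Topology

/-- the standard basis -/
noncomputable def ee (k : Fin 13) : V := Pi.single k 1

theorem sum_lin (l : V →ₗ[ℝ] ℝ) (b : V) : ∑ k, l (ee k) * b k = l b := by
  conv_rhs => rw [LinearMap.pi_apply_eq_sum_univ l b]
  refine Finset.sum_congr rfl fun k _ => ?_
  rw [smul_eq_mul, mul_comm]
  congr 2
  funext j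
  simp only [ee, Pi.single_apply]
  simp only [eq_comm]

theorem contDiff_kap (a e : ℝ) : ContDiff ℝ ∞ (fun q : V => kap a e (w q)) :=
  contDiff_const.mul (contDiff_w.rpow_const_of_ne fun q => (w_pos q).ne')

theorem contDiff_tau (a e : ℝ) (u v : V) : ContDiff ℝ ∞ (fun q => tau a e q u v) := by
  unfold tau
  have h3 := contDiff_H a
  have h4 := contDiff_K a e
  have h5 := contDiff_th u
  have h6 := contDiff_th v
  have hw := contDiff_w
  have hne : ∀ q, w q ≠ 0 := fun q => (w_pos q).ne'
  exact ((contDiff_const.add ((contDiff_const.div hw hne).mul (h3.mul contDiff_const))).add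
    ((contDiff_const.div hw hne).mul (h4.mul (h5.mul h6)))).div hw hne

theorem contDiff_G1 (a e : ℝ) (u v : V) : ContDiff ℝ ∞ (fun q => G1 a e q u v) := by
  unfold G1
  have h3 := contDiff_dS_left u
  have h4 := contDiff_dS_left v
  have h5 := contDiff_th u
  have h6 := contDiff_th v
  have hw := contDiff_w
  have hk := contDiff_kap a e
  have hne : ∀ q, w q ≠ 0 := fun q => (w_pos q).ne'
  exact (((contDiff_const.div hw hne).neg).mul ((h3.mul contDiff_const).add
    (h4.mul contDiff_const))).add ((hk.div_const _).mul ((contDiff_const.mul h6).add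
      (contDiff_const.mul h5)))

theorem contDiff_G2 (a e : ℝ) (u v : V) : ContDiff ℝ ∞ (fun q => G2 a e q u v) := by
  unfold G2
  have h3 := contDiff_dS_left u
  have h4 := contDiff_dS_left v
  have h5 := contDiff_th u
  have h6 := contDiff_th v
  have hw := contDiff_w
  have hk := contDiff_kap a e
  have hne : ∀ q, w q ≠ 0 := fun q => (w_pos q).ne'
  exact (((contDiff_const.div hw hne).neg).mul ((h3.mul contDiff_const).add
    (h4.mul contDiff_const))).sub ((hk.div_const _).mul ((contDiff_const.mul h6).add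
      (contDiff_const.mul h5)))

theorem contDiff_G3 (a : ℝ) (u v : V) : ContDiff ℝ ∞ (fun q => G3 a q u v) := by
  unfold G3
  have h3 := contDiff_dS_left u
  have h4 := contDiff_dS_left v
  have h5 := contDiff_th u
  have h6 := contDiff_th v
  have hw := contDiff_w
  have hne : ∀ q, w q ≠ 0 := fun q => (w_pos q).ne'
  exact (((contDiff_const.div hw hne).neg).mul ((h3.mul h6).add (h4.mul h5))).sub contDiff_const

theorem contDiff_PS : ContDiff ℝ ∞ (fun q : V => PS q) := by
  rw [contDiff_pi]
  intro i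
  unfold PS
  split_ifs
  · fun_prop
  · fun_prop

theorem contDiff_single (i : Fin 13) {f : V → ℝ} (hf : ContDiff ℝ ∞ f) :
    ContDiff ℝ ∞ (fun q : V => (Pi.single i (f q) : V)) := by
  rw [contDiff_pi]
  intro j
  by_cases h : j = i
  · subst h
    simpa using hf
  · simp only [Pi.single_eq_of_ne h]
    exact contDiff_const

theorem contDiff_coord (i : Fin 13) : ContDiff ℝ ∞ (fun q : V => q i) := by fun_prop

theorem contDiff_Gm (a e : ℝ) (u v : V) : ContDiff ℝ ∞ (fun q => Gm a e q u v) := by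
  unfold Gm
  exact ((((contDiff_tau a e u v).smul contDiff_PS).add
    (contDiff_single 10 (contDiff_G1 a e u v))).add
    (contDiff_single 11 (contDiff_G2 a e u v))).add
    (contDiff_single 12 ((contDiff_G3 a u v).add
      ((contDiff_coord 10).mul (contDiff_G2 a e u v))))

theorem Gm_symm (a e : ℝ) (q u v : V) : Gm a e q u v = Gm a e q v u := by
  have h1 : tau a e q u v = tau a e q v u := by
    unfold tau; rw [dS_comm u v]; ring
  have h2 : G1 a e q u v = G1 a e q v u := by unfold G1; ring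
  have h3 : G2 a e q u v = G2 a e q v u := by unfold G2; ring
  have h4 : G3 a q u v = G3 a q v u := by unfold G3; ring
  unfold Gm
  rw [h1, h2, h3, h4]

/-- the trace of a map of the form of the Christoffel symbols -/
theorem trace_form (q : V) (t g1 g2 g3 : V →ₗ[ℝ] ℝ) :
    ∑ k, (t (ee k) • PS q + Pi.single 10 (g1 (ee k)) + Pi.single 11 (g2 (ee k))
      + Pi.single 12 (g3 (ee k) + q 10 * g2 (ee k)) : V) k =
    t (PS q) + g1 (ee 10) + g2 (ee 11) + (g3 (ee 12) + q 10 * g2 (ee 12)) := by
  simp only [Pi.add_apply, Pi.smul_apply, smul_eq_mul, Finset.sum_add_distrib]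
  rw [sum_lin]
  congr 1
  · congr 1
    · congr 1
      rw [Finset.sum_eq_single 10]
      · simp
      · intro b _ hb
        rw [Pi.single_eq_of_ne hb]
      · simp
    · rw [Finset.sum_eq_single 11]
      · simp
      · intro b _ hb
        rw [Pi.single_eq_of_ne hb]
      · simp
  · rw [Finset.sum_eq_single 12]
    · simp
    · intro b _ hb
      rw [Pi.single_eq_of_ne hb]
    · simp

/-- linearity of a function -/
structure Lin (f : V → ℝ) : Prop where
  add : ∀ x y, f (x + y) = f x + f y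
  smul : ∀ (c : ℝ) x, f (c • x) = c * f x

/-- the linear map -/
def Lin.toL {f : V → ℝ} (h : Lin f) : V →ₗ[ℝ] ℝ where
  toFun := f
  map_add' := h.add
  map_smul' := h.smul

@[simp] theorem Lin.toL_apply {f : V → ℝ} (h : Lin f) (x : V) : h.toL x = f x := rfl

theorem trace_form' (q : V) {t g1 g2 g3 : V → ℝ} (ht : Lin t) (h1 : Lin g1) (h2 : Lin g2)
    (h3 : Lin g3) :
    ∑ k, (t (ee k) • PS q + Pi.single 10 (g1 (ee k)) + Pi.single 11 (g2 (ee k))
      + Pi.single 12 (g3 (ee k) + q 10 * g2 (ee k)) : V) k =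
    t (PS q) + g1 (ee 10) + g2 (ee 11) + (g3 (ee 12) + q 10 * g2 (ee 12)) :=
  trace_form q ht.toL h1.toL h2.toL h3.toL

theorem lin_tau (a e : ℝ) (q u : V) : Lin (fun z => tau a e q z u) := by
  constructor
  · intro x y
    unfold tau
    rw [dS_add_left, th_add]
    simp only [Pi.add_apply]
    ring
  · intro c x
    unfold tau
    rw [dS_smul_left, th_smul]
    simp only [Pi.smul_apply, smul_eq_mul]
    ring

theorem lin_G1 (a e : ℝ) (q u : V) : Lin (fun z => G1 a e q z u) := by
  constructor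
  · intro x y
    unfold G1
    rw [dS_add_right, th_add]
    simp only [Pi.add_apply]
    ring
  · intro c x
    unfold G1
    rw [dS_smul_right, th_smul]
    simp only [Pi.smul_apply, smul_eq_mul]
    ring

theorem lin_G2 (a e : ℝ) (q u : V) : Lin (fun z => G2 a e q z u) := by
  constructor
  · intro x y
    unfold G2
    rw [dS_add_right, th_add]
    simp only [Pi.add_apply]
    ring
  · intro c x
    unfold G2
    rw [dS_smul_right, th_smul]
    simp only [Pi.smul_apply, smul_eq_mul]
    ring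

theorem lin_G3 (a : ℝ) (q u : V) : Lin (fun z => G3 a q z u) := by
  constructor
  · intro x y
    unfold G3
    rw [dS_add_right, th_add]
    simp only [Pi.add_apply]
    ring
  · intro c x
    unfold G3
    rw [dS_smul_right, th_smul]
    simp only [Pi.smul_apply, smul_eq_mul]
    ring

theorem Gm_add (a e : ℝ) (q u x y : V) :
    Gm a e q (x + y) u = Gm a e q x u + Gm a e q y u := by
  unfold Gm
  rw [(lin_tau a e q u).add, (lin_G1 a e q u).add, (lin_G2 a e q u).add, (lin_G3 a q u).add,
    mul_add, add_add_add_comm (G3 a q x u), Pi.single_add, Pi.single_add, Pi.single_add, add_smul]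
  abel

theorem Gm_smul (a e : ℝ) (q u x : V) (c : ℝ) :
    Gm a e q (c • x) u = c • Gm a e q x u := by
  unfold Gm
  rw [(lin_tau a e q u).smul, (lin_G1 a e q u).smul, (lin_G2 a e q u).smul, (lin_G3 a q u).smul]
  funext i
  simp only [Pi.add_apply, Pi.smul_apply, smul_eq_mul, Pi.single_apply]
  split_ifs <;> ring

theorem Lin.comp_Gm {f : V → ℝ} (hf : Lin f) (a e : ℝ) (q u : V) :
    Lin (fun z => f (Gm a e q z u)) := by
  constructor
  · intro x y
    rw [Gm_add, hf.add]
  · intro c x
    rw [Gm_smul, hf.smul]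

theorem ee_apply (k j : Fin 13) : ee k j = if j = k then 1 else 0 := by
  simp [ee, Pi.single_apply]

theorem ee1010 : ee 10 10 = 1 := by rw [ee_apply, if_pos rfl]
theorem ee1111 : ee 11 11 = 1 := by rw [ee_apply, if_pos rfl]
theorem ee1011 : ee 10 11 = 0 := by rw [ee_apply, if_neg (by decide)]
theorem ee1110 : ee 11 10 = 0 := by rw [ee_apply, if_neg (by decide)]
theorem ee1210 : ee 12 10 = 0 := by rw [ee_apply, if_neg (by decide)]
theorem ee1211 : ee 12 11 = 0 := by rw [ee_apply, if_neg (by decide)]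

theorem dS_ee (q : V) (k : Fin 13) (hk : ¬ k.val < 10) : dS q (ee k) = 0 :=
  dS_single_right q k hk 1

theorem dS_ee' (q : V) (k : Fin 13) (hk : ¬ k.val < 10) : dS (ee k) q = 0 := by
  rw [dS_comm, dS_ee q k hk]

theorem PS_10 (q : V) : PS q 10 = 0 := by simp [PS]
theorem PS_11 (q : V) : PS q 11 = 0 := by simp [PS]
theorem PS_12 (q : V) : PS q 12 = 0 := by simp [PS]

theorem dS_PS' (u v : V) : dS (PS u) v = dS u v := by rw [dS_comm, dS_PS, dS_comm]

theorem th_PS (q u : V) : th q (PS u) = 0 := by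
  unfold th; rw [PS_12, PS_11]; ring

theorem ee1012 : ee 10 12 = 0 := by rw [ee_apply, if_neg (by decide)]
theorem ee1112 : ee 11 12 = 0 := by rw [ee_apply, if_neg (by decide)]
theorem ee1212 : ee 12 12 = 1 := by rw [ee_apply, if_pos rfl]

theorem th_ee10 (q : V) : th q (ee 10) = 0 := by unfold th; rw [ee1012, ee1011]; ring
theorem th_ee11 (q : V) : th q (ee 11) = - q 10 := by unfold th; rw [ee1112, ee1111]; ring
theorem th_ee12 (q : V) : th q (ee 12) = 1 := by unfold th; rw [ee1212, ee1211]; ring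

/-- the trace of the Christoffel symbols -/
theorem trace_Gm (a e : ℝ) (q u : V) :
    ∑ k, Gm a e q (ee k) u k = -(1 + 8 * a) * dS q u / w q := by
  have h := trace_form' q (lin_tau a e q u) (lin_G1 a e q u) (lin_G2 a e q u) (lin_G3 a q u)
  have h' : ∑ k, Gm a e q (ee k) u k = _ := h
  rw [h']
  unfold tau G1 G2 G3
  rw [dS_PS', th_PS, PS_10, PS_11, dS_ee q 10 (by decide), dS_ee q 11 (by decide),
    dS_ee q 12 (by decide), th_ee10, th_ee11, th_ee12]
  simp only [ee1010, ee1111, ee1011, ee1110, ee1210, ee1211]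
  have hw := (w_pos q).ne'
  field_simp
  ring

/-- the trace of the square -/
theorem trace_sq (a e : ℝ) (q u : V) :
    ∑ k, Gm a e q u (Gm a e q (ee k) u) k =
      (dS q u) ^ 2 / (w q) ^ 2 * (1 + 8 * a ^ 2 + (2 + 4 * a) ^ 2)
      - 8 * a ^ 2 * H a (w q) * (w q - 1) * (u 10 * u 10 + u 11 * u 11) / (w q) ^ 3
      - 2 * (2 + 4 * a) ^ 2 * K a e (w q) * (w q - 1) * (th q u) ^ 2 / (w q) ^ 3
      - (kap a e (w q)) ^ 2 * (th q u) ^ 2 / 2
      - kap a e (w q) * (u 11) ^ 2 / 2 + kap a e (w q) * (u 10) ^ 2 / 2 := by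
  have h := trace_form' q ((lin_tau a e q u).comp_Gm a e q u) ((lin_G1 a e q u).comp_Gm a e q u)
    ((lin_G2 a e q u).comp_Gm a e q u) ((lin_G3 a q u).comp_Gm a e q u)
  have h' : ∑ k, Gm a e q u (Gm a e q (ee k) u) k =
      ∑ k, Gm a e q (Gm a e q (ee k) u) u k := by
    refine Finset.sum_congr rfl fun k _ => ?_
    rw [Gm_symm]
  rw [h']
  have h'' : ∑ k, Gm a e q (Gm a e q (ee k) u) u k = _ := h
  rw [h'']
  have c1 : ∀ z v, tau a e q (Gm a e q z u) v = (tau a e q z u * dS v q
      + 2 * a / w q * (H a (w q) * (G1 a e q z u * v 10 + G2 a e q z u * v 11))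
      + (2 + 4 * a) / w q * (K a e (w q) * (G3 a q z u * th q v))) / w q := by
    intro z v
    rw [tau, dS_comm, dS_Gm, Gm_10, Gm_11, th_Gm]
  have c2 : ∀ z v, G1 a e q (Gm a e q z u) v = -(2 * a / w q) * (tau a e q z u * (w q - 1) * v 10
      + dS q v * G1 a e q z u)
      + kap a e (w q) / 2 * (G2 a e q z u * th q v + v 11 * G3 a q z u) := by
    intro z v
    rw [G1, dS_Gm, Gm_10, Gm_11, th_Gm, dS_self_eq]
  have c3 : ∀ z v, G2 a e q (Gm a e q z u) v = -(2 * a / w q) * (tau a e q z u * (w q - 1) * v 11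
      + dS q v * G2 a e q z u)
      - kap a e (w q) / 2 * (G1 a e q z u * th q v + v 10 * G3 a q z u) := by
    intro z v
    rw [G2, dS_Gm, Gm_10, Gm_11, th_Gm, dS_self_eq]
  have c4 : ∀ z v, G3 a q (Gm a e q z u) v = -((2 + 4 * a) / w q) *
      (tau a e q z u * (w q - 1) * th q v + dS q v * G3 a q z u)
      - (G1 a e q z u * v 11 + v 10 * G2 a e q z u) / 2 := by
    intro z v
    rw [G3, dS_Gm, Gm_10, Gm_11, th_Gm, dS_self_eq]
  simp only [c1, c2, c3, c4]
  unfold tau G1 G2 G3
  rw [dS_PS', dS_PS, th_PS, PS_10, PS_11, dS_ee q 10 (by decide), dS_ee q 11 (by decide),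
    dS_ee q 12 (by decide), dS_ee' u 10 (by decide), dS_ee' u 12 (by decide),
    dS_ee' u 11 (by decide), th_ee10, th_ee11, th_ee12, dS_self_eq, dS_comm u q,
    K_eq a e (w_pos q)]
  simp only [ee1010, ee1111, ee1011, ee1110, ee1210, ee1211]
  have hw := (w_pos q).ne'
  field_simp
  ring

end Pool.Agent.TH597.BL
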