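import Pool.Agent.TH597.BL.Ric

set_option autoImplicit false

/-! Ricci curvature of the metric of the example: the formula and the sign. -/

namespace Pool.Agent.TH597.BL

open Pool.Agent.W555.RG
open scoped ContDiff Topology

theorem tau_line (a e : ℝ) (q z u : V) (hz : z 10 = 0) :
    HasDerivAt (fun t : ℝ => tau a e (q + t • z) u u)
      (2 * dS q z * (-(tau a e q u u) / w q
        + (2 * a * (u 10 * u 10 + u 11 * u 11) * (-(2 * a + 1) * H a (w q) / (w q) ^ 2)
          + (2 + 4 * a) * (th q u * th q u) * (-(3 + 4 * a) * K a e (w q) / (w q) ^ 2)) / w q))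
      0 := by
  have h0 : q + (0 : ℝ) • z = q := by simp
  have hw := w_line q z
  have hne : w (q + (0 : ℝ) • z) ≠ 0 := (w_pos _).ne'
  have hne' : w q ≠ 0 := (w_pos _).ne'
  have hH := H_line a q z
  have hK := K_line a e q z
  have ht := th_line q z u
  have h1 := ((hasDerivAt_const (0 : ℝ) (2 * a)).div hw hne).mul
    (hH.mul_const (u 10 * u 10 + u 11 * u 11))
  have h2 := ((hasDerivAt_const (0 : ℝ) (2 + 4 * a)).div hw hne).mul (hK.mul (ht.mul ht))
  have h3 := (((h1.const_add (dS u u))).add h2).div hw hne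
  unfold tau
  convert! h3 using 1
  simp only [h0, hz, Pi.mul_apply, Pi.add_apply, Pi.div_apply]
  field_simp
  ring

theorem G1_line (a e : ℝ) (q u : V) :
    HasDerivAt (fun t : ℝ => G1 a e (q + t • ee 10) u u) (-(kap a e (w q)) * (u 11) ^ 2) 0 := by
  have hS : ∀ t : ℝ, ∀ v : V, dS (q + t • ee 10) v = dS q v := by
    intro t v
    rw [dS_add_left, dS_smul_left, dS_ee' v 10 (by decide)]; ring
  have hS' : ∀ t : ℝ, ∀ v : V, dS v (q + t • ee 10) = dS v q := by
    intro t v
    rw [dS_comm, hS, dS_comm]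
  have hw : ∀ t : ℝ, w (q + t • ee 10) = w q := by
    intro t
    unfold w
    rw [hS, hS']
  have ht := th_line q (ee 10) u
  rw [ee1010] at ht
  have h : (fun t : ℝ => G1 a e (q + t • ee 10) u u) = fun t : ℝ =>
      -(2 * a / w q) * (dS q u * u 10 + dS q u * u 10)
        + kap a e (w q) / 2 * (u 11 * th (q + t • ee 10) u + u 11 * th (q + t • ee 10) u) := by
    funext t
    unfold G1
    rw [hS, hw]
  rw [h]
  have h1 := (((ht.const_mul (u 11)).add (ht.const_mul (u 11))).const_mul
    (kap a e (w q) / 2)).const_add (-(2 * a / w q) * (dS q u * u 10 + dS q u * u 10))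
  convert! h1 using 1
  ring

theorem line_const (a e : ℝ) (q u : V) (k : Fin 13) (hk : k = 11 ∨ k = 12) :
    (∀ t : ℝ, G2 a e (q + t • ee k) u u = G2 a e q u u) ∧
    (∀ t : ℝ, G3 a (q + t • ee k) u u = G3 a q u u) := by
  have hk' : ¬ k.val < 10 := by rcases hk with rfl | rfl <;> decide
  have hk10 : ee k 10 = 0 := by
    rcases hk with rfl | rfl
    · exact ee1110
    · exact ee1210
  have hS : ∀ t : ℝ, ∀ v : V, dS (q + t • ee k) v = dS q v := by
    intro t v
    rw [dS_add_left, dS_smul_left, dS_ee' v k hk']; ring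
  have hS' : ∀ t : ℝ, ∀ v : V, dS v (q + t • ee k) = dS v q := by
    intro t v
    rw [dS_comm, hS, dS_comm]
  have hw : ∀ t : ℝ, w (q + t • ee k) = w q := by
    intro t
    unfold w
    rw [hS, hS']
  have ht : ∀ t : ℝ, th (q + t • ee k) u = th q u := by
    intro t
    unfold th
    simp only [Pi.add_apply, Pi.smul_apply, smul_eq_mul, hk10]
    ring
  constructor
  · intro t
    unfold G2
    rw [hS, hw, ht]
  · intro t
    unfold G3
    rw [hS, hw, ht]

theorem fderiv_Gm_apply (a e : ℝ) (q u v z : V) (k : Fin 13) :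
    fderiv ℝ (fun p => Gm a e p u v) q z k = fderiv ℝ (fun p => Gm a e p u v k) q z := by
  have hd : DifferentiableAt ℝ (fun p => Gm a e p u v) q :=
    ((contDiff_Gm a e u v).differentiable (by simp)).differentiableAt
  have h1 : HasFDerivAt (fun p => Gm a e p u v k)
      ((ContinuousLinearMap.proj k).comp (fderiv ℝ (fun p => Gm a e p u v) q)) q :=
    (hasFDerivAt_pi'.mp hd.hasFDerivAt) k
  rw [h1.fderiv]
  rfl

/-- divergence of `Γ(u, u)` -/
theorem trace_div (a e : ℝ) (q u : V) :
    ∑ k, fderiv ℝ (fun p => Gm a e p u u) q (ee k) k =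
      10 * tau a e q u u + 2 * (w q - 1) * (-(tau a e q u u) / w q
        + (2 * a * (u 10 * u 10 + u 11 * u 11) * (-(2 * a + 1) * H a (w q) / (w q) ^ 2)
          + (2 + 4 * a) * (th q u * th q u) * (-(3 + 4 * a) * K a e (w q) / (w q) ^ 2)) / w q)
      - kap a e (w q) * (u 11) ^ 2 := by
  have hdt : DifferentiableAt ℝ (fun p => tau a e p u u) q :=
    ((contDiff_tau a e u u).differentiable (by simp)).differentiableAt
  have hd1 : DifferentiableAt ℝ (fun p => G1 a e p u u) q :=
    ((contDiff_G1 a e u u).differentiable (by simp)).differentiableAt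
  have hd2 : DifferentiableAt ℝ (fun p => G2 a e p u u) q :=
    ((contDiff_G2 a e u u).differentiable (by simp)).differentiableAt
  have hd3 : DifferentiableAt ℝ (fun p => G3 a p u u) q :=
    ((contDiff_G3 a u u).differentiable (by simp)).differentiableAt
  have t1 : ∀ k : Fin 13, k.val < 10 → fderiv ℝ (fun p => Gm a e p u u) q (ee k) k =
      fderiv ℝ (fun p => tau a e p u u) q (ee k) * PS q k + tau a e q u u := by
    intro k hk
    rw [fderiv_Gm_apply]
    have h : (fun p : V => Gm a e p u u k) = fun p : V => tau a e p u u * p k := by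
      funext p
      have n10 : k ≠ 10 := by rintro rfl; exact absurd hk (by decide)
      have n11 : k ≠ 11 := by rintro rfl; exact absurd hk (by decide)
      have n12 : k ≠ 12 := by rintro rfl; exact absurd hk (by decide)
      simp only [Gm, Pi.add_apply, Pi.smul_apply, smul_eq_mul, PS, if_pos hk,
        Pi.single_eq_of_ne n10, Pi.single_eq_of_ne n11, Pi.single_eq_of_ne n12, add_zero]
    rw [h]
    have hc : HasFDerivAt (fun p : V => p k) (ContinuousLinearMap.proj (R := ℝ) k) q :=
      (ContinuousLinearMap.proj (R := ℝ) (φ := fun _ : Fin 13 => ℝ) k).hasFDerivAt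
    have hm : HasFDerivAt (fun p : V => tau a e p u u * p k) _ q := hdt.hasFDerivAt.mul hc
    rw [hm.fderiv]
    simp only [add_apply, smul_apply,
      ContinuousLinearMap.proj_apply, smul_eq_mul, ee_apply, if_true, PS, if_pos hk]
    ring
  have t2 : fderiv ℝ (fun p => Gm a e p u u) q (ee 10) 10 = -(kap a e (w q)) * (u 11) ^ 2 := by
    rw [fderiv_Gm_apply]
    simp only [Gm_10]
    exact fderiv_eq_of_line hd1 (G1_line a e q u)
  have t3 : fderiv ℝ (fun p => Gm a e p u u) q (ee 11) 11 = 0 := by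
    rw [fderiv_Gm_apply]
    simp only [Gm_11]
    apply fderiv_eq_of_line hd2
    have hc : (fun t : ℝ => G2 a e (q + t • ee 11) u u) = fun _ => G2 a e q u u :=
      funext (line_const a e q u 11 (Or.inl rfl)).1
    rw [hc]
    exact hasDerivAt_const _ _
  have t4 : fderiv ℝ (fun p => Gm a e p u u) q (ee 12) 12 = 0 := by
    rw [fderiv_Gm_apply]
    simp only [Gm_12]
    apply fderiv_eq_of_line (hd3.add ((contDiff_coord 10).differentiable (by simp) q |>.mul hd2))
    have h10 : ∀ t : ℝ, (q + t • ee 12) 10 = q 10 := by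
      intro t
      simp only [Pi.add_apply, Pi.smul_apply, smul_eq_mul, ee1210, mul_zero, add_zero]
    have hc : (fun t : ℝ => G3 a (q + t • ee 12) u u
        + (q + t • ee 12) 10 * G2 a e (q + t • ee 12) u u) =
        fun _ => G3 a q u u + q 10 * G2 a e q u u := by
      funext t
      rw [(line_const a e q u 12 (Or.inr rfl)).1, (line_const a e q u 12 (Or.inr rfl)).2, h10]
    show HasDerivAt (fun t : ℝ => G3 a (q + t • ee 12) u u
        + (q + t • ee 12) 10 * G2 a e (q + t • ee 12) u u) 0 0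
    rw [hc]
    exact hasDerivAt_const _ _
  have hsplit : ∀ k : Fin 13, fderiv ℝ (fun p => Gm a e p u u) q (ee k) k =
      fderiv ℝ (fun p => tau a e p u u) q (ee k) * PS q k
      + (if k.val < 10 then tau a e q u u else 0)
      + (if k = 10 then -(kap a e (w q)) * (u 11) ^ 2 else 0) := by
    intro k
    by_cases hk : k.val < 10
    · have n10 : k ≠ 10 := by rintro rfl; exact absurd hk (by decide)
      rw [t1 k hk, if_pos hk, if_neg n10, add_zero]
    · have : k = 10 ∨ k = 11 ∨ k = 12 := by omega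
      rcases this with rfl | rfl | rfl
      · rw [t2, PS_10, if_neg hk, if_pos rfl]; ring
      · rw [t3, PS_11, if_neg hk, if_neg (by decide)]; ring
      · rw [t4, PS_12, if_neg hk, if_neg (by decide)]; ring
  simp only [hsplit, Finset.sum_add_distrib]
  have s1 : ∑ k, fderiv ℝ (fun p => tau a e p u u) q (ee k) * PS q k =
      fderiv ℝ (fun p => tau a e p u u) q (PS q) :=
    sum_lin (fderiv ℝ (fun p => tau a e p u u) q).toLinearMap (PS q)
  have s2 : ∑ k : Fin 13, (if k.val < 10 then tau a e q u u else 0) = 10 * tau a e q u u := by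
    rw [← Finset.sum_filter, Finset.sum_const]
    have : (Finset.univ.filter (fun k : Fin 13 => k.val < 10)).card = 10 := by decide
    rw [this]
    simp
  have s3 : ∑ k : Fin 13, (if k = 10 then -(kap a e (w q)) * (u 11) ^ 2 else 0) =
      -(kap a e (w q)) * (u 11) ^ 2 := by
    rw [Finset.sum_ite_eq' Finset.univ (10 : Fin 13)]
    simp
  rw [s1, s2, s3, fderiv_eq_of_line hdt (tau_line a e q (PS q) u (PS_10 q)), dS_PS, dS_self_eq q]
  ring

/-- derivative of the trace of the Christoffel symbols -/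
theorem trace_D (a e : ℝ) (q u : V) :
    ∑ k, fderiv ℝ (fun p => Gm a e p (ee k) u) q u k =
      -(1 + 8 * a) * (dS u u / w q - 2 * (dS q u) ^ 2 / (w q) ^ 2) := by
  simp only [fderiv_Gm_apply]
  have hd : ∀ k : Fin 13, DifferentiableAt ℝ (fun p => Gm a e p (ee k) u k) q := by
    intro k
    have h := contDiff_Gm a e (ee k) u
    rw [contDiff_pi] at h
    exact ((h k).differentiable (by simp)).differentiableAt
  have h1 : fderiv ℝ (fun p => ∑ k, Gm a e p (ee k) u k) q u =
      ∑ k, fderiv ℝ (fun p => Gm a e p (ee k) u k) q u := by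
    have := HasFDerivAt.fun_sum (u := Finset.univ) fun k _ => (hd k).hasFDerivAt
    rw [this.fderiv]
    simp
  rw [← h1]
  simp only [trace_Gm]
  have hne : ∀ p : V, w p ≠ 0 := fun p => (w_pos p).ne'
  have hdd : DifferentiableAt ℝ (fun p : V => -(1 + 8 * a) * dS p u / w p) q :=
    (((contDiff_const.mul (contDiff_dS_left u)).div contDiff_w hne).differentiable
      (by simp)).differentiableAt
  have h0 : q + (0 : ℝ) • u = q := by simp
  apply fderiv_eq_of_line hdd
  have h2 := ((dS_line q u u).const_mul (-(1 + 8 * a))).div (w_line q u) (hne _)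
  convert! h2 using 1
  simp only [h0]
  have := hne q
  field_simp
  ring

/-- The Ricci curvature. -/
theorem Ric_G (a e : ℝ) (he : e ≠ 0) (q u : V) : Ric (G a e he) q u u =
    (8 / w q + (3 + 8 * a) / (w q) ^ 2) * dS u u
    - (7 + 32 * a + 24 * a ^ 2) / (w q) ^ 2 * (dS q u) ^ 2
    + (2 * a * H a (w q) / (w q) ^ 3 * (10 * w q - (5 + 8 * a) * (w q - 1)) - kap a e (w q) / 2) *
      (u 10 * u 10 + u 11 * u 11)
    + ((2 + 4 * a) * K a e (w q) / (w q) ^ 3 * (10 * w q - (5 + 8 * a) * (w q - 1))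
      + (kap a e (w q)) ^ 2 / 2) * (th q u * th q u) := by
  have hG : (G a e he).Gam = Gm a e := by
    funext p x y
    exact Gam_G a e he p x y
  have hsum : Ric (G a e he) q u u =
      ∑ k, fderiv ℝ (fun p => Gm a e p u u) q (ee k) k
      - ∑ k, fderiv ℝ (fun p => Gm a e p (ee k) u) q u k
      + ∑ k, Gm a e q (ee k) (Gm a e q u u) k
      - ∑ k, Gm a e q u (Gm a e q (ee k) u) k := by
    unfold Ric RMetric.curv
    rw [hG, ← Finset.sum_sub_distrib, ← Finset.sum_add_distrib, ← Finset.sum_sub_distrib]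
    rfl
  rw [hsum, trace_div, trace_D, trace_Gm, trace_sq, dS_Gm, dS_self_eq q, K_eq a e (w_pos q)]
  unfold tau
  rw [K_eq a e (w_pos q)]
  have hne := (w_pos q).ne'
  field_simp
  ring

/-- The Ricci curvature is nonnegative for small parameters. -/
theorem Ric_nonneg (a e : ℝ) (he : e ≠ 0) (ha : 0 < a) (ha' : a ≤ 1 / 40)
    (hea : e ^ 2 ≤ 16 * a) (q u : V) : 0 ≤ Ric (G a e he) q u u := by
  rw [Ric_G]
  have hw := w_pos q
  have hw1 := one_le_w q
  have hCS : (dS q u) ^ 2 ≤ (w q - 1) * dS u u := by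
    rw [← dS_self_eq]
    have hs : ∀ x y : V, dS x y = ∑ i ∈ Finset.univ.filter (fun i : Fin 13 => i.val < 10),
        x i * y i := by
      intro x y
      unfold dS
      rw [Finset.sum_filter]
    rw [hs q u, hs q q, hs u u]
    have := Finset.sum_mul_sq_le_sq_mul_sq
      (Finset.univ.filter (fun i : Fin 13 => i.val < 10)) q u
    simpa [sq] using this
  have hu := dS_self_nonneg u
  -- first part
  have p1 : 0 ≤ (8 / w q + (3 + 8 * a) / (w q) ^ 2) * dS u u
      - (7 + 32 * a + 24 * a ^ 2) / (w q) ^ 2 * (dS q u) ^ 2 := by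
    have h1 : (7 + 32 * a + 24 * a ^ 2) / (w q) ^ 2 * (dS q u) ^ 2 ≤
        (7 + 32 * a + 24 * a ^ 2) / (w q) ^ 2 * ((w q - 1) * dS u u) :=
      mul_le_mul_of_nonneg_left hCS (by positivity)
    have h2 : (7 + 32 * a + 24 * a ^ 2) / (w q) ^ 2 * ((w q - 1) * dS u u) ≤
        (8 / w q + (3 + 8 * a) / (w q) ^ 2) * dS u u := by
      have h3 : (7 + 32 * a + 24 * a ^ 2) / (w q) ^ 2 * (w q - 1) ≤
          8 / w q + (3 + 8 * a) / (w q) ^ 2 := by
        have h4 : 8 / w q + (3 + 8 * a) / (w q) ^ 2 = (8 * w q + (3 + 8 * a)) / (w q) ^ 2 := by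
          field_simp
        rw [h4, div_mul_eq_mul_div]
        apply div_le_div_of_nonneg_right _ (by positivity)
        have h5 : 7 + 32 * a + 24 * a ^ 2 ≤ 8 := by nlinarith
        nlinarith
      calc _ = (7 + 32 * a + 24 * a ^ 2) / (w q) ^ 2 * (w q - 1) * dS u u := by ring
        _ ≤ _ := mul_le_mul_of_nonneg_right h3 hu
    linarith
  -- second part
  have hk : kap a e (w q) = e ^ 2 * H a (w q) / (w q) ^ 2 := by
    unfold kap H
    have : (w q) ^ (-(2 + 2 * a)) = (w q) ^ (-(2 * a)) / (w q) ^ 2 := by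
      rw [← Real.rpow_natCast (w q) 2, ← Real.rpow_sub hw]
      congr 1
      push_cast
      ring
    rw [this]
    ring
  have hH := H_pos a hw
  have hb : 4 * w q ≤ 10 * w q - (5 + 8 * a) * (w q - 1) := by nlinarith
  have p2 : 0 ≤ (2 * a * H a (w q) / (w q) ^ 3 * (10 * w q - (5 + 8 * a) * (w q - 1))
      - kap a e (w q) / 2) * (u 10 * u 10 + u 11 * u 11) := by
    apply mul_nonneg _ (add_nonneg (mul_self_nonneg _) (mul_self_nonneg _))
    have h1 : 2 * a * H a (w q) / (w q) ^ 3 * (4 * w q) ≤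
        2 * a * H a (w q) / (w q) ^ 3 * (10 * w q - (5 + 8 * a) * (w q - 1)) :=
      mul_le_mul_of_nonneg_left hb (by positivity)
    have h2 : kap a e (w q) / 2 ≤ 2 * a * H a (w q) / (w q) ^ 3 * (4 * w q) := by
      rw [hk]
      have h3 : 2 * a * H a (w q) / (w q) ^ 3 * (4 * w q) = (16 * a) * H a (w q) / (w q) ^ 2 / 2 := by
        field_simp
        ring
      rw [h3]
      gcongr
    linarith
  have p3 : 0 ≤ ((2 + 4 * a) * K a e (w q) / (w q) ^ 3 * (10 * w q - (5 + 8 * a) * (w q - 1))
      + (kap a e (w q)) ^ 2 / 2) * (th q u * th q u) := by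
    apply mul_nonneg _ (mul_self_nonneg _)
    have hK := K_pos a he hw
    have : 0 ≤ 10 * w q - (5 + 8 * a) * (w q - 1) := by linarith
    positivity
  linarith

end Pool.Agent.TH597.BL
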